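import Pool.Agent.R303.Cut
import Pool.Agent.W190.A14

/-!
# One-sided lower bounds from monotone cutoffs (helper739)
-/

set_option autoImplicit false

open MeasureTheory Filter Topology Set
open scoped ContDiff
open H353 (CutW bdW)
open Pool.Agent.W190 (SF)

namespace Pool.Agent.N739.OW

noncomputable section

variable {a : ℕ → ℝ} {A θ : ℝ} {W : ℝ → ℝ}

theorem SF_nat (a : ℕ → ℝ) (n : ℕ) {u : ℝ} (h : u ∈ Ico (n : ℝ) (n + 1)) : SF a u = SF a n := by
  unfold SF
  have h0 : (0 : ℝ) ≤ u := le_trans (Nat.cast_nonneg n) h.1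
  have : ⌊u⌋₊ = n := (Nat.floor_eq_iff h0).2 ⟨h.1, h.2⟩
  rw [this, Nat.floor_natCast]

theorem SF_floor (a : ℕ → ℝ) (u : ℝ) : SF a u = SF a (⌊u⌋₊ : ℝ) := by
  unfold SF
  rw [Nat.floor_natCast]

theorem SF_meas (a : ℕ → ℝ) : Measurable (SF a) := by
  have : SF a = (fun n : ℕ => SF a (n : ℝ)) ∘ (fun u : ℝ => ⌊u⌋₊) := by
    funext u
    simp only [Function.comp_apply]
    exact SF_floor a u
  rw [this]
  exact (measurable_of_countable _).comp Nat.measurable_floor

theorem SF_bdd (a : ℕ → ℝ) (x y : ℝ) : ∃ B : ℝ, ∀ u ∈ Set.uIoc x y, |SF a u| ≤ B := by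
  refine ⟨∑ n ∈ Finset.Icc 1 ⌊max x y⌋₊, |a n|, fun u hu => ?_⟩
  unfold SF
  refine (Finset.abs_sum_le_sum_abs _ _).trans ?_
  refine Finset.sum_le_sum_of_subset_of_nonneg ?_ fun n _ _ => abs_nonneg _
  apply Finset.Icc_subset_Icc_right
  apply Nat.floor_le_floor
  rw [Set.uIoc] at hu
  exact hu.2

/-- every measurable function of the sum which is Lipschitz is integrable -/
theorem comp_int (a : ℕ → ℝ) {g : ℝ → ℝ} (hg : Measurable g) (hg1 : ∀ t, |g t| ≤ |t|) (x y : ℝ) :
    IntervalIntegrable (fun u => g (SF a u)) volume x y := by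
  obtain ⟨B, hB⟩ := SF_bdd a x y
  rw [intervalIntegrable_iff]
  refine Measure.integrableOn_of_bounded (M := B) (by simp) ?_ ?_
  · exact (hg.comp (SF_meas a)).aestronglyMeasurable
  · refine (ae_restrict_iff' measurableSet_uIoc).2 (Eventually.of_forall fun u hu => ?_)
    rw [Real.norm_eq_abs]
    exact (hg1 _).trans (hB u hu)

theorem pos_int (a : ℕ → ℝ) (s x y : ℝ) (hs : s = 1 ∨ s = -1) :
    IntervalIntegrable (fun u => max (s * SF a u) 0) volume x y := by
  refine comp_int a (g := fun t => max (s * t) 0) (by fun_prop) (fun t => ?_) x y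
  rcases hs with rfl | rfl
  · rw [one_mul, abs_of_nonneg (le_max_right _ _)]
    exact max_le (le_abs_self t) (abs_nonneg t)
  · rw [neg_one_mul, abs_of_nonneg (le_max_right _ _)]
    exact max_le (neg_le_abs t) (abs_nonneg t)

theorem abs_int (a : ℕ → ℝ) (x y : ℝ) : IntervalIntegrable (fun u => |SF a u|) volume x y :=
  comp_int a (g := fun t => |t|) (by fun_prop) (fun t => by rw [abs_abs]) x y

/-- the integral over a unit interval -/
theorem unit_int (a : ℕ → ℝ) (g : ℝ → ℝ) (n : ℕ) : ∫ u in (n : ℝ)..((n + 1 : ℕ) : ℝ), g (SF a u) = g (SF a n) := by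
  have h1 : ∫ u in (n : ℝ)..((n + 1 : ℕ) : ℝ), g (SF a u) = ∫ u in (n : ℝ)..((n + 1 : ℕ) : ℝ), g (SF a n) := by
    rw [intervalIntegral.integral_of_le (by push_cast; linarith),
      intervalIntegral.integral_of_le (by push_cast; linarith),
      integral_Ioc_eq_integral_Ioo, integral_Ioc_eq_integral_Ioo]
    refine setIntegral_congr_fun measurableSet_Ioo fun u hu => ?_
    show g (SF a u) = g (SF a n)
    rw [SF_nat a n ⟨hu.1.le, by have := hu.2; push_cast at this; exact this⟩]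
  rw [h1, intervalIntegral.integral_const]
  push_cast
  simp

theorem sum_int (a : ℕ → ℝ) {g : ℝ → ℝ} (hg : Measurable g) (hg1 : ∀ t, |g t| ≤ |t|) {m N : ℕ} (h : m ≤ N) :
    ∑ n ∈ Finset.Ico m N, g (SF a n) = ∫ u in (m : ℝ)..(N : ℝ), g (SF a u) := by
  rw [← intervalIntegral.sum_integral_adjacent_intervals_Ico (a := fun n : ℕ => (n : ℝ)) h
    (fun k _ => comp_int a hg hg1 _ _)]
  exact Finset.sum_congr rfl fun n _ => (unit_int a g n).symm

/-- Abel summation -/
theorem abel (a : ℕ → ℝ) (w : ℕ → ℝ) (N : ℕ) :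
    ∑ n ∈ Finset.Icc 1 N, a n * w n = ∑ n ∈ Finset.Icc 1 N, (w n - w (n + 1)) * SF a n + w (N + 1) * SF a N := by
  induction N with
  | zero => simp [SF]
  | succ N ih =>
    rw [Finset.sum_Icc_succ_top (by omega), Finset.sum_Icc_succ_top (by omega), ih]
    have : SF a ((N + 1 : ℕ) : ℝ) = SF a (N : ℝ) + a (N + 1) := by
      unfold SF
      rw [Nat.floor_natCast, Nat.floor_natCast, Finset.sum_Icc_succ_top (by omega)]
    rw [this]
    ring

theorem W_low (hW : CutW A W) {y : ℝ} (h : y ≤ 1) : W y = 0 := hW.2.1 y h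

theorem W_hi (hW : CutW A W) {y : ℝ} (h : A ≤ y) : W y = 1 := hW.2.2 y h

/-- the weights -/
def wt (W : ℝ → ℝ) (x : ℝ) (n : ℕ) : ℝ := W (x / n) - W (x / (n + 1 : ℕ))

theorem wt_nonneg (hm : Monotone W) {x : ℝ} (hx : 0 ≤ x) {n : ℕ} (hn : 1 ≤ n) : 0 ≤ wt W x n := by
  unfold wt
  rw [sub_nonneg]
  refine hm ?_
  have hn0 : (0 : ℝ) < n := by exact_mod_cast hn
  exact div_le_div_of_nonneg_left hx hn0 (by push_cast; linarith)

theorem abel_W (hW : CutW A W) (a : ℕ → ℝ) {x : ℝ} (hx : 1 ≤ x) :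
    ∑ n ∈ Finset.Icc 1 ⌊x⌋₊, a n * W (x / n) = ∑ n ∈ Finset.Icc 1 ⌊x⌋₊, wt W x n * SF a n := by
  have := abel a (fun n => W (x / n)) ⌊x⌋₊
  rw [this]
  have h0 : W (x / ((⌊x⌋₊ + 1 : ℕ) : ℝ)) = 0 := by
    apply W_low hW
    rw [div_le_one (by positivity)]
    push_cast
    exact (Nat.lt_floor_add_one x).le
  simp only [h0, zero_mul, add_zero]
  rfl

/-- the derivative is bounded -/
theorem deriv_bdd (hW : CutW A W) : ∃ K : ℝ, 0 < K ∧ ∀ y, |deriv W y| ≤ K := by
  have hc : Continuous (deriv W) := hW.1.continuous_deriv (by simp)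
  obtain ⟨K, hK⟩ := (isCompact_Icc (a := (0 : ℝ)) (b := max A 1 + 1)).exists_bound_of_continuousOn hc.continuousOn
  refine ⟨max K 1, lt_max_of_lt_right one_pos, fun y => ?_⟩
  by_cases h1 : y < 0
  · have : deriv W y = 0 := by
      have e : W =ᶠ[𝓝 y] fun _ => 0 := by
        filter_upwards [isOpen_Iio.mem_nhds (show y ∈ Iio (0 : ℝ) from h1)] with z hz
        exact W_low hW (by have : z < 0 := hz; linarith)
      rw [e.deriv_eq]
      simp
    rw [this, abs_zero]
    positivity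
  · by_cases h2 : max A 1 + 1 < y
    · have : deriv W y = 0 := by
        have e : W =ᶠ[𝓝 y] fun _ => 1 := by
          filter_upwards [isOpen_Ioi.mem_nhds (show y ∈ Ioi (max A 1) from by
            have : max A 1 < y := by linarith
            exact this)] with z hz
          exact W_hi hW (by have : max A 1 < z := hz; linarith [le_max_left A 1])
        rw [e.deriv_eq]
        simp
      rw [this, abs_zero]
      positivity
    · have := hK y ⟨not_lt.1 h1, not_lt.1 h2⟩
      rw [Real.norm_eq_abs] at this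
      exact this.trans (le_max_left _ _)

theorem W_diff (hW : CutW A W) : Differentiable ℝ W := hW.1.differentiable (by simp)

theorem W_lip (hW : CutW A W) {K : ℝ} (hK : ∀ y, |deriv W y| ≤ K) (y z : ℝ) (h : y ≤ z) :
    W z - W y ≤ K * (z - y) := by
  refine Convex.image_sub_le_mul_sub_of_deriv_le convex_univ (W_diff hW).continuous.continuousOn
    (W_diff hW).differentiableOn (fun u _ => (le_abs_self _).trans (hK u)) y (mem_univ _) z (mem_univ _) h

/-- an interval on which the derivative is positive -/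
theorem deriv_pos (hA : 1 < A) (hW : CutW A W) : ∃ k y1 y2 : ℝ, 0 < k ∧ 1 < y1 ∧ y1 < y2 ∧ y2 < A ∧
    ∀ y ∈ Icc y1 y2, k ≤ deriv W y := by
  obtain ⟨y0, hy0, h0⟩ := exists_deriv_eq_slope W hA (W_diff hW).continuous.continuousOn
    (W_diff hW).differentiableOn
  rw [W_hi hW le_rfl, W_low hW le_rfl, sub_zero] at h0
  have hp : 0 < deriv W y0 := by
    rw [h0]
    exact div_pos one_pos (by linarith)
  have hc : Continuous (deriv W) := hW.1.continuous_deriv (by simp)
  have hev : ∀ᶠ y in 𝓝 y0, deriv W y0 / 2 < deriv W y ∧ y ∈ Ioo 1 A :=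
    (hc.continuousAt.eventually (lt_mem_nhds (show deriv W y0 / 2 < deriv W y0 by linarith))).and
      (isOpen_Ioo.mem_nhds hy0)
  obtain ⟨l, u, ⟨hl, hu⟩, hlu⟩ := mem_nhds_iff_exists_Ioo_subset.1 hev
  refine ⟨deriv W y0 / 2, (l + y0) / 2, (y0 + u) / 2, by linarith, ?_, by linarith, ?_, fun y hy => ?_⟩
  · exact (hlu (show (l + y0) / 2 ∈ Ioo l u from ⟨by linarith, by linarith⟩)).2.1
  · exact (hlu (show (y0 + u) / 2 ∈ Ioo l u from ⟨by linarith, by linarith⟩)).2.2
  · exact (hlu (show y ∈ Ioo l u from ⟨by linarith [hy.1], by linarith [hy.2]⟩)).1.le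

end

end Pool.Agent.N739.OW
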