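import Pool.Agent.N739.OW.Main

/-!
# The kernel of a monotone cutoff (helper739)
-/

set_option autoImplicit false

open MeasureTheory Filter Topology Set
open scoped ContDiff
open H353 (CutW bdW)
open Pool.Agent.W190 (SF)

namespace Pool.Agent.N739.OW

noncomputable section

variable {A : ℝ} {W : ℝ → ℝ}

theorem dW_low (hW : CutW A W) {y : ℝ} (h : y < 1) : deriv W y = 0 := by
  have e : W =ᶠ[𝓝 y] fun _ => 0 := by
    filter_upwards [isOpen_Iio.mem_nhds (show y ∈ Iio (1 : ℝ) from h)] with z hz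
    exact W_low hW (le_of_lt hz)
  rw [e.deriv_eq]
  simp

theorem dW_hi (hW : CutW A W) {y : ℝ} (h : A < y) : deriv W y = 0 := by
  have e : W =ᶠ[𝓝 y] fun _ => 1 := by
    filter_upwards [isOpen_Ioi.mem_nhds (show y ∈ Ioi A from h)] with z hz
    exact W_hi hW (le_of_lt hz)
  rw [e.deriv_eq]
  simp

/-- the kernel -/
def ker (W : ℝ → ℝ) (v : ℝ) : ℝ := deriv W v⁻¹ * (v⁻¹) ^ 2

theorem ker_hi (hW : CutW A W) {v : ℝ} (h : 1 < v) : ker W v = 0 := by
  unfold ker
  rw [dW_low hW (inv_lt_one_of_one_lt₀ h), zero_mul]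

theorem ker_low (hA : 1 < A) (hW : CutW A W) {v : ℝ} (h : v < A⁻¹) : ker W v = 0 := by
  unfold ker
  rcases le_or_gt v 0 with h0 | h0
  · rw [dW_low hW (lt_of_le_of_lt (inv_nonpos.2 h0) one_pos), zero_mul]
  · have : A < v⁻¹ := by
      rw [lt_inv_comm₀ (by linarith) h0]
      exact h
    rw [dW_hi hW this, zero_mul]

theorem ker_nonneg (hm : Monotone W) (v : ℝ) : 0 ≤ ker W v :=
  mul_nonneg hm.deriv_nonneg (sq_nonneg _)

theorem dW_contDiff (hW : CutW A W) : ContDiff ℝ 1 (deriv W) := by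
  exact (contDiff_infty_iff_deriv.1 hW.1).2.of_le (by simp)

theorem ker_contDiff (hA : 1 < A) (hW : CutW A W) : ContDiff ℝ 1 (ker W) := by
  rw [contDiff_iff_contDiffAt]
  intro v
  rcases lt_or_ge v A⁻¹ with h | h
  · have e : ker W =ᶠ[𝓝 v] fun _ => 0 := by
      filter_upwards [isOpen_Iio.mem_nhds (show v ∈ Iio A⁻¹ from h)] with z hz
      exact ker_low hA hW hz
    exact contDiffAt_const.congr_of_eventuallyEq e
  · have hv : v ≠ 0 := (lt_of_lt_of_le (inv_pos.2 (by linarith)) h).ne'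
    have h1 : ContDiffAt ℝ 1 (fun v : ℝ => v⁻¹) v := contDiffAt_inv ℝ hv
    exact ((dW_contDiff hW).contDiffAt.comp v h1).mul (h1.pow 2)

theorem ker_cont (hA : 1 < A) (hW : CutW A W) : Continuous (ker W) := (ker_contDiff hA hW).continuous

theorem ker_lip (hA : 1 < A) (hW : CutW A W) : ∃ K : ℝ, 0 ≤ K ∧ ∀ x y : ℝ, |ker W x - ker W y| ≤ K * |x - y| := by
  have hs : HasCompactSupport (ker W) := by
    refine HasCompactSupport.of_support_subset_isCompact (isCompact_Icc (a := A⁻¹) (b := 1)) fun v hv => ?_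
    by_contra hcon
    apply hv
    rw [mem_Icc, not_and_or, not_le, not_le] at hcon
    rcases hcon with h | h
    · exact ker_low hA hW h
    · exact ker_hi hW h
  obtain ⟨K, hK⟩ := ContDiff.lipschitzWith_of_hasCompactSupport hs (ker_contDiff hA hW) (by simp)
  refine ⟨K, K.2, fun x y => ?_⟩
  have := hK.dist_le_mul x y
  rwa [Real.dist_eq, Real.dist_eq] at this

/-- the kernel at the scale `x` -/
def kx (W : ℝ → ℝ) (x u : ℝ) : ℝ := x⁻¹ * ker W (u / x)

theorem kx_nonneg (hm : Monotone W) {x : ℝ} (hx : 0 < x) (u : ℝ) : 0 ≤ kx W x u :=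
  mul_nonneg (inv_nonneg.2 hx.le) (ker_nonneg hm _)

theorem kx_hi (hW : CutW A W) {x u : ℝ} (hx : 0 < x) (h : x < u) : kx W x u = 0 := by
  unfold kx
  rw [ker_hi hW ((one_lt_div hx).2 h), mul_zero]

theorem kx_low (hA : 1 < A) (hW : CutW A W) {x u : ℝ} (hx : 0 < x) (h : u < x / A) : kx W x u = 0 := by
  unfold kx
  rw [ker_low hA hW, mul_zero]
  rw [div_lt_iff₀ hx]
  rwa [mul_comm, ← div_eq_mul_inv]

theorem kx_cont (hA : 1 < A) (hW : CutW A W) (x : ℝ) : Continuous (kx W x) := by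
  unfold kx
  exact continuous_const.mul ((ker_cont hA hW).comp (continuous_id.div_const x))

theorem kx_lip {K : ℝ} (hK : ∀ x y : ℝ, |ker W x - ker W y| ≤ K * |x - y|) {x : ℝ} (hx : 0 < x) (u v : ℝ) :
    |kx W x u - kx W x v| ≤ K / x ^ 2 * |u - v| := by
  unfold kx
  rw [← mul_sub, abs_mul, abs_of_pos (inv_pos.2 hx)]
  have h1 := hK (u / x) (v / x)
  rw [← sub_div, abs_div, abs_of_pos hx] at h1
  calc x⁻¹ * |ker W (u / x) - ker W (v / x)| ≤ x⁻¹ * (K * (|u - v| / x)) :=
        mul_le_mul_of_nonneg_left h1 (inv_nonneg.2 hx.le)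
    _ = K / x ^ 2 * |u - v| := by field_simp

theorem kx_deriv (hW : CutW A W) {x u : ℝ} (hx : 0 < x) (hu : 0 < u) :
    HasDerivAt (fun u => -W (x / u)) (kx W x u) u := by
  have h1 : HasDerivAt (fun u : ℝ => x / u) (x * (-(u ^ 2)⁻¹)) u := by
    have := (hasDerivAt_inv hu.ne').const_mul x
    simpa [div_eq_mul_inv] using this
  have h2 : HasDerivAt W (deriv W (x / u)) (x / u) := ((W_diff hW) (x / u)).hasDerivAt
  have h3 := (h2.comp u h1).neg
  have e : kx W x u = -(deriv W (x / u) * (x * (-(u ^ 2)⁻¹))) := by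
    unfold kx ker
    rw [inv_div]
    field_simp
  rw [e]
  exact h3

theorem kx_int_gen (hA : 1 < A) (hW : CutW A W) {x p q : ℝ} (hx : 0 < x) (hp : 0 < p) (hpq : p ≤ q) :
    ∫ u in p..q, kx W x u = W (x / p) - W (x / q) := by
  rw [intervalIntegral.integral_eq_sub_of_hasDerivAt (f := fun u => -W (x / u)) (f' := kx W x)]
  · ring
  · intro u hu
    rw [uIcc_of_le hpq] at hu
    exact kx_deriv hW hx (by linarith [hu.1])
  · exact (kx_cont hA hW x).intervalIntegrable _ _

theorem kx_int (hA : 1 < A) (hW : CutW A W) {x : ℝ} (hx : 0 < x) : ∫ u in (x / A)..x, kx W x u = 1 := by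
  have hA0 : 0 < A := by linarith
  rw [kx_int_gen hA hW hx (by positivity) (div_le_self hx.le hA.le)]
  rw [div_div_cancel₀ hx.ne', div_self hx.ne', W_hi hW le_rfl, W_low hW le_rfl, sub_zero]

/-- the smoothed sum is a mean of the sharp one -/
theorem mean_eq (hA : 1 < A) (hW : CutW A W) (b : ℕ → ℝ) {x : ℝ} (hx : A ≤ x) :
    ∑ n ∈ Finset.Icc 1 ⌊x⌋₊, b n * W (x / n) = ∫ u in (x / A)..x, SF b u * kx W x u := by
  have hx1 : 1 ≤ x := by linarith
  have hx0 : 0 < x := by linarith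
  have hA0 : 0 < A := by linarith
  have hint : ∀ p q : ℝ, IntervalIntegrable (fun u => SF b u * kx W x u) volume p q := fun p q =>
    (comp_int b (g := fun t => t) measurable_id (fun t => le_rfl) p q).mul_continuousOn
      (kx_cont hA hW x).continuousOn
  rw [abel_W hW b hx1]
  have h1 : ∀ n ∈ Finset.Icc 1 ⌊x⌋₊, wt W x n * SF b n =
      ∫ u in (n : ℝ)..((n + 1 : ℕ) : ℝ), SF b u * kx W x u := by
    intro n hn
    rw [Finset.mem_Icc] at hn
    have hn0 : (0 : ℝ) < n := by exact_mod_cast hn.1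
    have h2 : ∫ u in (n : ℝ)..((n + 1 : ℕ) : ℝ), SF b u * kx W x u =
        ∫ u in (n : ℝ)..((n + 1 : ℕ) : ℝ), SF b n * kx W x u := by
      rw [intervalIntegral.integral_of_le (by push_cast; linarith),
        intervalIntegral.integral_of_le (by push_cast; linarith),
        integral_Ioc_eq_integral_Ioo, integral_Ioc_eq_integral_Ioo]
      refine setIntegral_congr_fun measurableSet_Ioo fun u hu => ?_
      show SF b u * kx W x u = SF b n * kx W x u
      rw [SF_nat b n ⟨hu.1.le, by have := hu.2; push_cast at this; exact this⟩]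
    rw [h2, intervalIntegral.integral_const_mul, kx_int_gen hA hW hx0 hn0 (by push_cast; linarith)]
    unfold wt
    ring
  rw [Finset.sum_congr rfl h1]
  have h3 : ∑ n ∈ Finset.Icc 1 ⌊x⌋₊, ∫ u in (n : ℝ)..((n + 1 : ℕ) : ℝ), SF b u * kx W x u =
      ∫ u in ((1 : ℕ) : ℝ)..((⌊x⌋₊ + 1 : ℕ) : ℝ), SF b u * kx W x u := by
    rw [← intervalIntegral.sum_integral_adjacent_intervals_Ico (a := fun n : ℕ => (n : ℝ))
      (show 1 ≤ ⌊x⌋₊ + 1 by omega) (fun k _ => hint _ _)]
    rfl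
  rw [h3]
  have hxN : x ≤ ((⌊x⌋₊ + 1 : ℕ) : ℝ) := by
    push_cast
    exact (Nat.lt_floor_add_one x).le
  have hxA : 1 ≤ x / A := by rw [le_div_iff₀ hA0]; linarith
  have hxA2 : x / A ≤ x := div_le_self hx0.le hA.le
  have e1 : ∫ u in ((1 : ℕ) : ℝ)..(x / A), SF b u * kx W x u = 0 := by
    rw [intervalIntegral.integral_of_le (by simpa using hxA), integral_Ioc_eq_integral_Ioo]
    refine setIntegral_eq_zero_of_forall_eq_zero fun u hu => ?_
    rw [kx_low hA hW hx0 hu.2, mul_zero]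
  have e2 : ∫ u in x..((⌊x⌋₊ + 1 : ℕ) : ℝ), SF b u * kx W x u = 0 := by
    rw [intervalIntegral.integral_of_le hxN]
    refine setIntegral_eq_zero_of_forall_eq_zero fun u hu => ?_
    rw [kx_hi hW hx0 hu.1, mul_zero]
  rw [← intervalIntegral.integral_add_adjacent_intervals (hint _ (x / A)) (hint _ _), e1, zero_add,
    ← intervalIntegral.integral_add_adjacent_intervals (hint _ x) (hint _ _), e2, add_zero]

end

end Pool.Agent.N739.OW
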