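import Pool.Agent.N739.OW.Sq
import Pool.Agent.Results.MP_a499ba_nt.LiouvilleWindows

/-!
# The Liouville function; the measure of the sets of large values (helper739)
-/

set_option autoImplicit false

open MeasureTheory Filter Topology Set
open scoped ContDiff
open H353 (CutW bdW)
open Pool.Agent.W190 (SF rh_free)
open Pool.Agent.R303.SW (laR laR_eq liou_bound)

namespace Pool.Agent.N739.OW

noncomputable section

variable {a : ℕ → ℝ}

theorem bdW_lam {θ : ℝ} {W : ℝ → ℝ} (hθ : 1 / 2 < θ) (h : bdW muR θ W) : bdW laR θ W := by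
  obtain ⟨C, hC⟩ := h
  have hC0 : 0 ≤ C := by
    have := (abs_nonneg _).trans (hC 1 le_rfl)
    simpa using this
  have hs : Summable fun n : ℕ => 1 / (n : ℝ) ^ (2 * θ) := Real.summable_one_div_nat_rpow.2 (by linarith)
  refine ⟨C * ∑' n : ℕ, 1 / (n : ℝ) ^ (2 * θ), fun x hx => ?_⟩
  have h1 := Pool.Agent.H534R2.BH.lam_sum ⌊x⌋₊ (fun n => ((W (x / n) : ℝ) : ℂ))
  have h2 : ((∑ n ∈ Finset.Icc 1 ⌊x⌋₊, laR n * W (x / n) : ℝ) : ℂ) =
      ((∑ m ∈ Finset.Icc 1 ⌊x⌋₊, ∑ l ∈ Finset.Icc 1 (⌊x⌋₊ / m ^ 2), muR l * W (x / (m : ℝ) ^ 2 / l) : ℝ) : ℂ) := by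
    have e : ((∑ n ∈ Finset.Icc 1 ⌊x⌋₊, laR n * W (x / n) : ℝ) : ℂ) =
        ∑ n ∈ Finset.Icc 1 ⌊x⌋₊, (-1 : ℂ) ^ ArithmeticFunction.cardFactors n * ((W (x / n) : ℝ) : ℂ) := by
      push_cast
      refine Finset.sum_congr rfl fun n hn => ?_
      rw [laR_eq (by rw [Finset.mem_Icc] at hn; omega)]
      push_cast
      rfl
    rw [e, h1]
    push_cast
    refine Finset.sum_congr rfl fun m hm => Finset.sum_congr rfl fun l hl => ?_
    have hm0 : (m : ℝ) ≠ 0 := by
      rw [Finset.mem_Icc] at hm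
      have : m ≠ 0 := by omega
      exact_mod_cast this
    have hl0 : (l : ℝ) ≠ 0 := by
      rw [Finset.mem_Icc] at hl
      have : l ≠ 0 := by omega
      exact_mod_cast this
    have e3 : x / ((l : ℝ) * (m : ℝ) ^ 2) = x / (m : ℝ) ^ 2 / l := by
      field_simp
    unfold muR
    push_cast
    rw [e3]
  have h3 := Complex.ofReal_injective h2
  rw [h3]
  refine (Finset.abs_sum_le_sum_abs _ _).trans ?_
  have h4 : ∀ m ∈ Finset.Icc 1 ⌊x⌋₊, |∑ l ∈ Finset.Icc 1 (⌊x⌋₊ / m ^ 2), muR l * W (x / (m : ℝ) ^ 2 / l)| ≤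
      C * x ^ θ * (1 / (m : ℝ) ^ (2 * θ)) := by
    intro m hm
    rw [Finset.mem_Icc] at hm
    have hm0 : (0:ℝ) < m := by exact_mod_cast hm.1
    have e2 : ⌊x⌋₊ / m ^ 2 = ⌊x / (m : ℝ) ^ 2⌋₊ := by
      have := Nat.floor_div_natCast x (m ^ 2)
      push_cast at this
      exact this.symm
    rw [e2]
    rcases le_or_gt 1 (x / (m : ℝ) ^ 2) with h | h
    · refine (hC _ h).trans (le_of_eq ?_)
      rw [Real.div_rpow (by linarith) (by positivity), ← Real.rpow_natCast, ← Real.rpow_mul hm0.le]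
      push_cast
      ring
    · rw [Nat.floor_eq_zero.2 h]
      simp
      positivity
  refine (Finset.sum_le_sum h4).trans ?_
  rw [← Finset.mul_sum]
  have h5 := hs.sum_le_tsum (Finset.Icc 1 ⌊x⌋₊) (fun n _ => by positivity)
  calc C * x ^ θ * ∑ i ∈ Finset.Icc 1 ⌊x⌋₊, 1 / (i : ℝ) ^ (2 * θ) ≤
        C * x ^ θ * ∑' n : ℕ, 1 / (n : ℝ) ^ (2 * θ) := by
        refine mul_le_mul_of_nonneg_left h5 ?_
        have : 0 ≤ x ^ θ := by positivity
        positivity
    _ = _ := by ring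

theorem inp_la : Inp laR := by
  refine ⟨fun σ θ A h1 h2 h3 hA h => ?_, fun c θ hc hθ hz => ?_, fun σ θ h1 h2 h3 => liou_bound h1 h2 θ h3⟩
  · obtain ⟨W, a1, a2, a3⟩ := inp_mu.cut σ θ A h1 h2 h3 hA h
    exact ⟨W, a1, a2, bdW_lam (by linarith) a3⟩
  · have h1 := Pool.Agent.Results.MP_a499ba_nt.LiouvilleWindows.part1 θ 0 c 0 hθ le_rfl
      (by nlinarith [sq_nonneg (2 * θ - 1)]) hc (by norm_num) hz
    filter_upwards [h1] with x hx
    have := (hx 0 (by simp)).le
    simp only [Real.rpow_zero, div_one, Polynomial.eval_zero, sub_zero] at this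
    exact this

/-- the measure of the set of large values of one sign -/
theorem Inp.meas (h : Inp a) {σ A : ℝ} (h1 : 1 / 2 < σ) (h2 : σ < 1) (hA1 : 1 < A)
    (hA : Real.pi * hsum σ < Real.log A) {ρ : ℂ} (hz : riemannZeta ρ = 0) (hρ : σ < ρ.re)
    {σ₀ : ℝ} (hσ₀ : 1 / 2 ≤ σ₀) (hfree : ∀ z : ℂ, σ₀ < z.re → riemannZeta z ≠ 0) {ε : ℝ} (hε : 0 < ε)
    {s : ℝ} (hs : s = 1 ∨ s = -1) :
    ∀ᶠ X : ℝ in atTop, X ^ (1 + ρ.re - σ₀ - ε) ≤
      (volume {u : ℝ | u ∈ Icc X (A * X) ∧ u ^ (ρ.re - ε) ≤ s * SF a u}).toReal := by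
  have hρ1 := re_lt_one hz
  obtain ⟨C, hC⟩ := h.up σ₀ (σ₀ + ε / 4) hσ₀ hfree (by linarith)
  set C' : ℝ := max C 1 with hC'
  have hC'1 : 1 ≤ C' := le_max_right _ _
  have hev := h.one h1 h2 (by linarith) hA hz hρ (show 0 < ε / 4 by linarith) hs
  have t1 : ∀ᶠ X : ℝ in atTop, 2 * (A * (A - 1)) ≤ X ^ (3 * ε / 4) :=
    (tendsto_rpow_atTop (by linarith)).eventually_ge_atTop _
  have t2 : ∀ᶠ X : ℝ in atTop, 2 * (C' * A ^ (σ₀ + ε / 4)) ≤ X ^ (ε / 2) :=
    (tendsto_rpow_atTop (by linarith)).eventually_ge_atTop _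
  filter_upwards [hev, t1, t2, eventually_ge_atTop (1 : ℝ)] with X g1 g2 g3 hX1
  have hX0 : 0 < X := by linarith
  have hXA : X ≤ A * X := by nlinarith
  set S : Set ℝ := {u : ℝ | u ∈ Icc X (A * X) ∧ u ^ (ρ.re - ε) ≤ s * SF a u} with hS
  have hSm : MeasurableSet S := by
    have m1 : Measurable fun u : ℝ => u ^ (ρ.re - ε) := by fun_prop
    have m2 : Measurable fun u : ℝ => s * SF a u := (SF_meas a).const_mul s
    exact measurableSet_Icc.inter (measurableSet_le m1 m2)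
  have hSsub : S ⊆ Icc X (A * X) := fun u hu => hu.1
  have hSfin : volume S ≠ ⊤ := ne_top_of_le_ne_top (by simp) (measure_mono hSsub)
  set K : ℝ := C' * (A * X) ^ (σ₀ + ε / 4) with hK
  have hK0 : 0 < K := by positivity
  have b1 : ∫ u in X..(A * X), max (s * SF a u) 0 ≤
      ∫ u in X..(A * X), (S.indicator (fun _ => K) u + A * X ^ (ρ.re - ε)) := by
    have hint : IntervalIntegrable (fun u => S.indicator (fun _ => K) u) volume X (A * X) := by
      rw [intervalIntegrable_iff]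
      exact (integrableOn_const (C := K) (by simp)).indicator hSm
    refine intervalIntegral.integral_mono_on hXA (pos_int a s _ _ hs) (hint.add intervalIntegrable_const)
      fun u hu => ?_
    have hu0 : 0 < u := by linarith [hu.1]
    by_cases hm : u ^ (ρ.re - ε) ≤ s * SF a u
    · rw [indicator_of_mem (show u ∈ S from ⟨hu, hm⟩)]
      have e1 : max (s * SF a u) 0 ≤ K := by
        refine (part_le a hs u).trans ((hC u (by linarith [hu.1])).trans ?_)
        have : u ^ (σ₀ + ε / 4) ≤ (A * X) ^ (σ₀ + ε / 4) := Real.rpow_le_rpow hu0.le hu.2 (by linarith)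
        calc C * u ^ (σ₀ + ε / 4) ≤ C' * u ^ (σ₀ + ε / 4) := by
              gcongr
              exact le_max_left _ _
          _ ≤ K := by
              rw [hK]
              gcongr
      have : 0 ≤ A * X ^ (ρ.re - ε) := by positivity
      linarith
    · rw [indicator_of_notMem (show u ∉ S from fun h3 => hm h3.2), zero_add]
      have e2 : u ^ (ρ.re - ε) ≤ A * X ^ (ρ.re - ε) := by
        have e3 : u = (u / X) * X := by field_simp
        have e4 : 1 ≤ u / X := by rw [le_div_iff₀ hX0]; linarith [hu.1]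
        have e5 : u / X ≤ A := by rw [div_le_iff₀ hX0]; exact hu.2
        rw [e3, Real.mul_rpow (by positivity) hX0.le]
        have e6 : (u / X) ^ (ρ.re - ε) ≤ u / X := by
          calc (u / X) ^ (ρ.re - ε) ≤ (u / X) ^ (1 : ℝ) := Real.rpow_le_rpow_of_exponent_le e4 (by linarith)
            _ = u / X := Real.rpow_one _
        exact mul_le_mul_of_nonneg_right (e6.trans e5) (by positivity)
      have : 0 ≤ A * X ^ (ρ.re - ε) := by positivity
      exact max_le ((not_le.1 hm).le.trans e2) this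
  have b2 : ∫ u in X..(A * X), (S.indicator (fun _ => K) u + A * X ^ (ρ.re - ε)) ≤
      K * (volume S).toReal + A * X ^ (ρ.re - ε) * ((A - 1) * X) := by
    have hint : IntervalIntegrable (fun u => S.indicator (fun _ => K) u) volume X (A * X) := by
      rw [intervalIntegrable_iff]
      exact (integrableOn_const (C := K) (by simp)).indicator hSm
    rw [intervalIntegral.integral_add hint intervalIntegrable_const, intervalIntegral.integral_const, smul_eq_mul,
      intervalIntegral.integral_of_le hXA, setIntegral_indicator hSm, setIntegral_const, smul_eq_mul]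
    have e1 : volume.real (Ioc X (A * X) ∩ S) ≤ (volume S).toReal := by
      unfold Measure.real
      exact ENNReal.toReal_mono hSfin (measure_mono inter_subset_right)
    have e2 : volume.real (Ioc X (A * X) ∩ S) * K ≤ K * (volume S).toReal := by
      rw [mul_comm]
      gcongr
    have e3 : (A * X - X) * (A * X ^ (ρ.re - ε)) = A * X ^ (ρ.re - ε) * ((A - 1) * X) := by ring
    linarith
  have b3 : A * X ^ (ρ.re - ε) * ((A - 1) * X) ≤ 1 / 2 * X ^ (1 + ρ.re - ε / 4) := by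
    have e1 : X ^ (1 + ρ.re - ε / 4) = X ^ (3 * ε / 4) * (X ^ (ρ.re - ε) * X) := by
      rw [← Real.rpow_add_one hX0.ne', ← Real.rpow_add hX0]
      congr 1
      ring
    rw [e1]
    have e2 : 0 ≤ X ^ (ρ.re - ε) * X := by positivity
    nlinarith
  have b4 : 1 / 2 * X ^ (1 + ρ.re - ε / 4) ≤ K * (volume S).toReal := by
    linarith
  have b5 : K = C' * A ^ (σ₀ + ε / 4) * X ^ (σ₀ + ε / 4) := by
    rw [hK, Real.mul_rpow (by linarith) hX0.le]
    ring
  have b6 : X ^ (1 + ρ.re - σ₀ - ε) * (2 * K) ≤ X ^ (1 + ρ.re - ε / 4) := by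
    rw [b5]
    have e1 : X ^ (1 + ρ.re - ε / 4) = X ^ (1 + ρ.re - σ₀ - ε) * X ^ (ε / 2) * X ^ (σ₀ + ε / 4) := by
      rw [← Real.rpow_add hX0, ← Real.rpow_add hX0]
      congr 1
      ring
    rw [e1]
    calc X ^ (1 + ρ.re - σ₀ - ε) * (2 * (C' * A ^ (σ₀ + ε / 4) * X ^ (σ₀ + ε / 4)))
        = X ^ (1 + ρ.re - σ₀ - ε) * (2 * (C' * A ^ (σ₀ + ε / 4))) * X ^ (σ₀ + ε / 4) := by ring
      _ ≤ _ := by gcongr
  have b7 : X ^ (1 + ρ.re - σ₀ - ε) * (2 * K) ≤ (volume S).toReal * (2 * K) := by linarith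
  exact le_of_mul_le_mul_right b7 (by positivity)

end

end Pool.Agent.N739.OW
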