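import Pool.Agent.N739.OW.Abs

/-!
# One-sided lower bounds from monotone cutoffs: the transfer (helper739)
-/

set_option autoImplicit false

open MeasureTheory Filter Topology Set
open scoped ContDiff
open H353 (CutW bdW)
open Pool.Agent.W190 (SF)

namespace Pool.Agent.N739.OW

noncomputable section

variable {a : ℕ → ℝ} {A θ : ℝ} {W : ℝ → ℝ}

theorem wt_zero (hW : CutW A W) {x : ℝ} (hx : 0 ≤ x) {n : ℕ} (hn : 1 ≤ n) (h : A ≤ x / ((n + 1 : ℕ) : ℝ)) :
    wt W x n = 0 := by
  unfold wt
  have hn0 : (0 : ℝ) < n := by exact_mod_cast hn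
  have h2 : A ≤ x / n := h.trans (div_le_div_of_nonneg_left hx hn0 (by push_cast; linarith))
  rw [W_hi hW h, W_hi hW h2, sub_self]

theorem diff_eq {x : ℝ} {n : ℕ} (hn : 1 ≤ n) : x / n - x / ((n + 1 : ℕ) : ℝ) = x / (n * (n + 1)) := by
  have hn0 : (n : ℝ) ≠ 0 := by positivity
  have hn1 : (n : ℝ) + 1 ≠ 0 := by positivity
  push_cast
  field_simp
  ring

theorem wt_le (hW : CutW A W) {K : ℝ} (hK : ∀ y, |deriv W y| ≤ K) {x : ℝ} (hx : 0 ≤ x) {n : ℕ} (hn : 1 ≤ n) :
    wt W x n ≤ K * (x / (n * (n + 1))) := by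
  have hn0 : (0 : ℝ) < n := by exact_mod_cast hn
  have := W_lip hW hK (x / ((n + 1 : ℕ) : ℝ)) (x / n) (div_le_div_of_nonneg_left hx hn0 (by push_cast; linarith))
  rw [diff_eq hn] at this
  exact this

theorem wt_ge (hW : CutW A W) {k y1 y2 : ℝ} (hk : ∀ y ∈ Icc y1 y2, k ≤ deriv W y) {x : ℝ} (hx : 0 ≤ x) {n : ℕ}
    (hn : 1 ≤ n) (h1 : y1 ≤ x / ((n + 1 : ℕ) : ℝ)) (h2 : x / n ≤ y2) :
    k * (x / (n * (n + 1))) ≤ wt W x n := by
  have hn0 : (0 : ℝ) < n := by exact_mod_cast hn
  have hle : x / ((n + 1 : ℕ) : ℝ) ≤ x / n := div_le_div_of_nonneg_left hx hn0 (by push_cast; linarith)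
  have := Convex.mul_sub_le_image_sub_of_le_deriv (convex_Icc y1 y2) (W_diff hW).continuous.continuousOn
    (W_diff hW).differentiableOn (fun u hu => hk u (interior_subset hu)) (x / ((n + 1 : ℕ) : ℝ))
    ⟨h1, hle.trans h2⟩ (x / n) ⟨h1.trans hle, h2⟩ hle
  rw [diff_eq hn] at this
  exact this

theorem transfer {A1 : ℝ} (hA1 : 1 < A1) (hW : CutW A1 W) (hm : Monotone W) (hb : bdW a θ W) (hθ0 : 0 ≤ θ)
    (hAA : A1 < A) {β : ℝ} (hβ : θ < β)
    (hlow : ∀ c : ℝ, 0 < c → ∀ᶠ x : ℝ in atTop, x ^ (1 + β) ≤ ∫ y in x..(x + c * x), |SF a y|)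
    {s : ℝ} (hs : s = 1 ∨ s = -1) :
    ∃ c0 : ℝ, 0 < c0 ∧ ∀ᶠ X : ℝ in atTop, c0 * X ^ (1 + β) ≤ ∫ u in X..(A * X), max (s * SF a u) 0 := by
  obtain ⟨C, hC⟩ := hb
  obtain ⟨K, hK0, hK⟩ := deriv_bdd hW
  obtain ⟨k, y1, y2, hk0, hy1, hy12, hy2, hk⟩ := deriv_pos hA1 hW
  have hA : 1 < A := hA1.trans hAA
  have hy20 : 0 < y2 := by linarith
  have hy10 : 0 < y1 := by linarith
  set c : ℝ := (y2 / y1 - 1) / 2 with hc
  have hr : 1 < y2 / y1 := (one_lt_div hy10).2 hy12
  have hc0 : 0 < c := by rw [hc]; linarith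
  have hβ0 : 0 < β := by linarith
  have hC0 : 0 ≤ C := by
    have := (abs_nonneg _).trans (hC 1 le_rfl)
    simpa using this
  set c0 : ℝ := k / (4 * K * A ^ 2) * (1 / y2) ^ (1 + β) with hc0d
  have hc00 : 0 < c0 := by positivity
  refine ⟨c0, hc00, ?_⟩
  -- the size conditions
  have t1 : ∀ᶠ X : ℝ in atTop, (1 + c) * ((A * X - 1) / y2 + 1) ≤ (A * X - 1) / y1 - 1 := by
    have hd : 0 < A * (1 / y1 - (1 + c) / y2) := by
      apply mul_pos (by linarith)
      rw [sub_pos, div_lt_div_iff₀ hy20 hy10, one_mul]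
      have : (1 + c) * y1 = (y2 + y1) / 2 := by rw [hc]; field_simp; ring
      rw [this]
      linarith
    filter_upwards [(tendsto_id.const_mul_atTop hd).eventually_ge_atTop (2 + c + 1 / y1)] with X hX
    have e : (A * X - 1) / y1 - 1 - (1 + c) * ((A * X - 1) / y2 + 1) =
        A * (1 / y1 - (1 + c) / y2) * X - (2 + c + 1 / y1) + (1 + c) / y2 := by
      field_simp
      ring
    have h2 : 0 < (1 + c) / y2 := by positivity
    have h3 : 2 + c + 1 / y1 ≤ A * (1 / y1 - (1 + c) / y2) * X := hX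
    linarith
  have t2 : ∀ᶠ X : ℝ in atTop, X + 1 ≤ (A * X - 1) / A1 := by
    have hd : 0 < A / A1 - 1 := by
      rw [sub_pos, one_lt_div (by linarith)]
      exact hAA
    filter_upwards [(tendsto_id.const_mul_atTop hd).eventually_ge_atTop (1 + 1 / A1)] with X hX
    have h3 : 1 + 1 / A1 ≤ (A / A1 - 1) * X := hX
    have e : (A * X - 1) / A1 = (A / A1 - 1) * X + X - 1 / A1 := by
      have : A1 ≠ 0 := by linarith
      field_simp
      ring
    rw [e]
    linarith
  have t3 : ∀ᶠ X : ℝ in atTop, X ≤ A * X - 1 := by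
    have hd : 0 < A - 1 := by linarith
    filter_upwards [(tendsto_id.const_mul_atTop hd).eventually_ge_atTop 1] with X hX
    have h3 : 1 ≤ (A - 1) * X := hX
    linarith
  have t4 : ∀ᶠ x : ℝ in atTop, C * x ^ θ ≤ 1 / 2 * (k / x * (x / y2) ^ (1 + β)) := by
    have hd : 0 < β - θ := by linarith
    filter_upwards [(tendsto_rpow_atTop hd).eventually_ge_atTop (C * (2 / k * y2 ^ (1 + β))),
      eventually_gt_atTop 0] with x hx hx0
    have e : 1 / 2 * (k / x * (x / y2) ^ (1 + β)) = (k / 2 * (1 / y2 ^ (1 + β))) * (x ^ θ * x ^ (β - θ)) := by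
      rw [Real.div_rpow hx0.le hy20.le, ← Real.rpow_add hx0, Real.rpow_add hx0 1 β, Real.rpow_one,
        show θ + (β - θ) = β by ring]
      field_simp
    rw [e]
    calc C * x ^ θ = (k / 2 * (1 / y2 ^ (1 + β))) * (x ^ θ * (C * (2 / k * y2 ^ (1 + β)))) := by
          have : y2 ^ (1 + β) ≠ 0 := by positivity
          field_simp
      _ ≤ _ := by gcongr
  have t5 : Tendsto (fun X : ℝ => A * X - 1) atTop atTop :=
    tendsto_atTop_add_const_right atTop (-1) (tendsto_id.const_mul_atTop (by linarith))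
  have t6 : Tendsto (fun X : ℝ => ((⌈(A * X - 1) / y2⌉₊ : ℕ) : ℝ)) atTop atTop := by
    refine tendsto_atTop_mono (fun X => Nat.le_ceil _) ?_
    exact t5.atTop_div_const hy20
  filter_upwards [t1, t2, t3, t5.eventually t4, t6.eventually (hlow c hc0), eventually_ge_atTop (1 : ℝ),
    t5.eventually_ge_atTop 1] with X u1 u2 u3 u4 u5 u6 u7
  set x : ℝ := A * X - 1 with hx
  have hX0 : 0 < X := by linarith
  have hx0 : 0 < x := by linarith
  set N : ℕ := ⌊x⌋₊ with hN
  have hNx : (N : ℝ) ≤ x := Nat.floor_le hx0.le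
  have hNx2 : x < N + 1 := Nat.lt_floor_add_one x
  set I : ℝ := ∫ u in X..(A * X), max (s * SF a u) 0 with hI
  have hid := abel_W hW a u7
  have hCx := hC x u7
  rw [← hN] at hid hCx
  rw [hid] at hCx
  set P : ℝ := ∑ n ∈ Finset.Icc 1 N, wt W x n * max (s * SF a n) 0 with hP
  set Q : ℝ := ∑ n ∈ Finset.Icc 1 N, wt W x n * max (-(s * SF a n)) 0 with hQ
  have hPQ : P - Q = s * ∑ n ∈ Finset.Icc 1 N, wt W x n * SF a n := by
    rw [hP, hQ, ← Finset.sum_sub_distrib, Finset.mul_sum]
    refine Finset.sum_congr rfl fun n _ => ?_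
    have : max (s * SF a n) 0 - max (-(s * SF a n)) 0 = s * SF a n := by
      rcases le_total (s * SF a n) 0 with h | h
      · rw [max_eq_right h, max_eq_left (by linarith)]; ring
      · rw [max_eq_left h, max_eq_right (by linarith)]; ring
    rw [← mul_sub, this]
    ring
  have hPQ2 : P + Q = ∑ n ∈ Finset.Icc 1 N, wt W x n * |SF a n| := by
    rw [hP, hQ, ← Finset.sum_add_distrib]
    refine Finset.sum_congr rfl fun n _ => ?_
    have : max (s * SF a n) 0 + max (-(s * SF a n)) 0 = |SF a n| := by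
      have hsa : |s * SF a n| = |SF a n| := by
        rcases hs with rfl | rfl
        · rw [one_mul]
        · rw [neg_one_mul, abs_neg]
      rw [← hsa]
      rcases le_total (s * SF a n) 0 with h | h
      · rw [max_eq_right h, max_eq_left (by linarith), abs_of_nonpos h]; ring
      · rw [max_eq_left h, max_eq_right (by linarith), abs_of_nonneg h]; ring
    rw [← mul_add, this]
  have hdiff : |P - Q| ≤ C * x ^ θ := by
    rw [hPQ]
    rcases hs with rfl | rfl
    · rw [one_mul]; exact hCx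
    · rw [neg_one_mul, abs_neg]; exact hCx
  -- upper bound for P
  set m : ℕ := ⌈X⌉₊ with hm0
  have hXm : X ≤ m := Nat.le_ceil X
  have hm1 : 1 ≤ m := by
    have : (0 : ℝ) < m := by linarith
    exact_mod_cast this
  have hIpos : 0 ≤ I := intervalIntegral.integral_nonneg (by nlinarith) fun u _ => le_max_right _ _
  have hg1 : ∀ t : ℝ, |max (s * t) 0| ≤ |t| := by
    intro t
    rcases hs with rfl | rfl
    · rw [one_mul, abs_of_nonneg (le_max_right _ _)]
      exact max_le (le_abs_self t) (abs_nonneg t)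
    · rw [neg_one_mul, abs_of_nonneg (le_max_right _ _)]
      exact max_le (neg_le_abs t) (abs_nonneg t)
  have hPup : P ≤ K * A / X * I := by
    have e1 : P ≤ ∑ n ∈ Finset.Ico m (N + 1), K * A / X * max (s * SF a n) 0 := by
      rw [hP]
      have hsplit : ∑ n ∈ Finset.Icc 1 N, wt W x n * max (s * SF a n) 0 =
          ∑ n ∈ Finset.Ico 1 (N + 1), wt W x n * max (s * SF a n) 0 := by
        congr 1
      rw [hsplit]
      by_cases hmN : m ≤ N + 1
      · rw [← Finset.sum_Ico_consecutive _ hm1 hmN]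
        have z : ∑ n ∈ Finset.Ico 1 m, wt W x n * max (s * SF a n) 0 = 0 := by
          refine Finset.sum_eq_zero fun n hn => ?_
          rw [Finset.mem_Ico] at hn
          have h1 : (n : ℝ) < X := Nat.lt_ceil.1 hn.2
          rw [wt_zero hW hx0.le hn.1, zero_mul]
          have hn0 : (0 : ℝ) < ((n + 1 : ℕ) : ℝ) := by positivity
          rw [le_div_iff₀ hn0]
          have h2 : ((n + 1 : ℕ) : ℝ) ≤ x / A1 := by push_cast; linarith
          rw [le_div_iff₀ (by linarith)] at h2
          linarith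
        rw [z, zero_add]
        refine Finset.sum_le_sum fun n hn => ?_
        rw [Finset.mem_Ico] at hn
        have hn1 : 1 ≤ n := hm1.trans hn.1
        have hnX : X ≤ n := hXm.trans (by exact_mod_cast hn.1)
        have h1 := wt_le hW hK hx0.le hn1
        have h2 : K * (x / (n * (n + 1))) ≤ K * A / X := by
          have h3 : x / (n * (n + 1)) ≤ A * X / (X * X) := by
            have : (0 : ℝ) ≤ A * X := by positivity
            have hxA : x ≤ A * X := by linarith
            have h5 : X * X ≤ n * (n + 1) := by nlinarith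
            exact div_le_div₀ this hxA (by positivity) h5
          calc K * (x / (n * (n + 1))) ≤ K * (A * X / (X * X)) := by gcongr
            _ = K * A / X := by field_simp
        exact mul_le_mul_of_nonneg_right (h1.trans h2) (le_max_right _ _)
      · have z : ∑ n ∈ Finset.Ico 1 (N + 1), wt W x n * max (s * SF a n) 0 = 0 := by
          refine Finset.sum_eq_zero fun n hn => ?_
          rw [Finset.mem_Ico] at hn
          have h1 : (n : ℝ) < X := Nat.lt_ceil.1 (by omega)
          rw [wt_zero hW hx0.le hn.1, zero_mul]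
          have hn0 : (0 : ℝ) < ((n + 1 : ℕ) : ℝ) := by positivity
          rw [le_div_iff₀ hn0]
          have h2 : ((n + 1 : ℕ) : ℝ) ≤ x / A1 := by push_cast; linarith
          rw [le_div_iff₀ (by linarith)] at h2
          linarith
        rw [z]
        exact Finset.sum_nonneg fun n _ => mul_nonneg (by positivity) (le_max_right _ _)
    refine e1.trans ?_
    rw [← Finset.mul_sum]
    refine mul_le_mul_of_nonneg_left ?_ (by positivity)
    by_cases hmN : m ≤ N + 1
    · rw [sum_int a (g := fun t => max (s * t) 0) (by fun_prop) hg1 hmN, hI]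
      refine intervalIntegral.integral_mono_interval hXm (by exact_mod_cast hmN) ?_ ?_ (pos_int a s _ _ hs)
      · push_cast
        linarith
      · exact Eventually.of_forall fun u => le_max_right _ _
    · rw [Finset.Ico_eq_empty (by omega), Finset.sum_empty]
      exact hIpos
  -- lower bound for P + Q
  set p : ℕ := ⌈x / y2⌉₊ with hp
  set q : ℕ := ⌊x / y1⌋₊ with hq
  have hp1 : x / y2 ≤ p := Nat.le_ceil _
  have hp2 : (p : ℝ) < x / y2 + 1 := Nat.ceil_lt_add_one (by positivity)
  have hq1 : (q : ℝ) ≤ x / y1 := Nat.floor_le (by positivity)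
  have hq2 : x / y1 - 1 < q := by
    have := Nat.lt_floor_add_one (x / y1)
    linarith
  have hp0 : (0 : ℝ) < p := lt_of_lt_of_le (by positivity) hp1
  have hpz : p + c * p ≤ (q : ℝ) := by
    have h1 : (1 + c) * (p : ℝ) ≤ (1 + c) * (x / y2 + 1) := by gcongr
    have h2 : (p : ℝ) + c * p = (1 + c) * p := by ring
    rw [h2]
    linarith
  have hpq : p ≤ q := by
    have : (p : ℝ) ≤ q := by nlinarith
    exact_mod_cast this
  have hpp : 1 ≤ p := by exact_mod_cast hp0
  have hlowPQ : k / x * (x / y2) ^ (1 + β) ≤ P + Q := by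
    rw [hPQ2]
    have hqN : q ≤ N := by
      rw [hN]
      apply Nat.le_floor
      refine hq1.trans ?_
      exact div_le_self hx0.le hy1.le
    have s1 : ∑ n ∈ Finset.Ico p q, k / x * |SF a n| ≤ ∑ n ∈ Finset.Icc 1 N, wt W x n * |SF a n| := by
      refine le_trans (Finset.sum_le_sum (g := fun n => wt W x n * |SF a n|) fun n hn => ?_)
        (Finset.sum_le_sum_of_subset_of_nonneg ?_ fun n hn _ => ?_)
      · rw [Finset.mem_Ico] at hn
        have hn1 : 1 ≤ n := hpp.trans hn.1
        have hn0 : (0 : ℝ) < n := by exact_mod_cast hn1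
        have hnq : ((n + 1 : ℕ) : ℝ) ≤ x / y1 := le_trans (by exact_mod_cast hn.2) hq1
        have hpn : x / y2 ≤ n := hp1.trans (by exact_mod_cast hn.1)
        have h1 : y1 ≤ x / ((n + 1 : ℕ) : ℝ) := by
          rw [le_div_iff₀ (by positivity)]
          rw [le_div_iff₀ hy10] at hnq
          linarith
        have h2 : x / n ≤ y2 := by
          rw [div_le_iff₀ hn0]
          rw [div_le_iff₀ hy20] at hpn
          linarith
        have h3 := wt_ge hW hk hx0.le hn1 h1 h2
        have h4 : k / x ≤ k * (x / (n * (n + 1))) := by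
          have h5 : ((n + 1 : ℕ) : ℝ) ≤ x := hnq.trans (div_le_self hx0.le hy1.le)
          push_cast at h5
          have h6 : (n : ℝ) * (n + 1) ≤ x * x := by
            have : (n : ℝ) ≤ x := by linarith
            exact mul_le_mul this h5 (by positivity) hx0.le
          calc k / x = k * (x / (x * x)) := by field_simp
            _ ≤ _ := by gcongr
        exact mul_le_mul_of_nonneg_right (h4.trans h3) (abs_nonneg _)
      · intro n hn
        rw [Finset.mem_Ico] at hn
        rw [Finset.mem_Icc]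
        omega
      · rw [Finset.mem_Icc] at hn
        exact mul_nonneg (wt_nonneg hm hx0.le hn.1) (abs_nonneg _)
    refine le_trans ?_ s1
    rw [← Finset.mul_sum]
    refine mul_le_mul_of_nonneg_left ?_ (by positivity)
    rw [sum_int a (g := fun t => |t|) (by fun_prop) (fun t => by rw [abs_abs]) hpq]
    calc (x / y2) ^ (1 + β) ≤ (p : ℝ) ^ (1 + β) := Real.rpow_le_rpow (by positivity) hp1 (by linarith)
      _ ≤ ∫ y in (p : ℝ)..(p + c * p), |SF a y| := u5
      _ ≤ _ := by
        refine intervalIntegral.integral_mono_interval le_rfl (by nlinarith) hpz ?_ (abs_int a _ _)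
        exact Eventually.of_forall fun u => abs_nonneg _
  -- combination
  have hfin : k / x * (x / y2) ^ (1 + β) ≤ 4 * (K * A / X * I) := by
    have h1 := (abs_le.1 hdiff).1
    linarith
  have hlow2 : k / (A * X) * (X / y2) ^ (1 + β) ≤ k / x * (x / y2) ^ (1 + β) := by
    have h1 : k / (A * X) ≤ k / x := div_le_div_of_nonneg_left hk0.le hx0 (by linarith)
    have h2 : (X / y2) ^ (1 + β) ≤ (x / y2) ^ (1 + β) :=
      Real.rpow_le_rpow (by positivity) (div_le_div_of_nonneg_right u3 hy20.le) (by linarith)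
    gcongr
  have h3 : c0 * X ^ (1 + β) = X / (4 * K * A) * (k / (A * X) * (X / y2) ^ (1 + β)) := by
    rw [hc0d, show X / y2 = 1 / y2 * X by ring, Real.mul_rpow (by positivity) hX0.le]
    field_simp
  rw [h3]
  calc X / (4 * K * A) * (k / (A * X) * (X / y2) ^ (1 + β)) ≤ X / (4 * K * A) * (4 * (K * A / X * I)) :=
        mul_le_mul_of_nonneg_left (hlow2.trans hfin) (by positivity)
    _ = I := by
        have hA0 : A ≠ 0 := by linarith
        field_simp

end

end Pool.Agent.N739.OW
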