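import Pool.Agent.N739.OW.Main
import Pool.Agent.W190.A17

/-!
# One-sided bounds for a summatory function and the zeros of zeta (helper739)
-/

set_option autoImplicit false

open MeasureTheory Filter Topology Set
open scoped ContDiff
open H353 (CutW bdW)
open Pool.Agent.W190 (SF rh_free)

namespace Pool.Agent.N739.OW

noncomputable section

/-- the zeros of zeta in the upper half plane with real part at least `σ` -/
abbrev HZ (σ : ℝ) : Type := {ρ : ℂ // riemannZeta ρ = 0 ∧ σ ≤ ρ.re ∧ 0 < ρ.im}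

/-- the sum of `m(ρ) / Im ρ` over these zeros -/
def hsum (σ : ℝ) : ℝ := ∑' ρ : HZ σ, (analyticOrderNatAt riemannZeta (ρ : ℂ) : ℝ) / (ρ : ℂ).im

theorem hsum_summable {σ : ℝ} (h1 : 1 / 2 < σ) (h2 : σ < 1) :
    Summable fun ρ : HZ σ => (analyticOrderNatAt riemannZeta (ρ : ℂ) : ℝ) / (ρ : ℂ).im :=
  (Pool.Agent.R303.HT_zeta σ h1 h2).1

/-- the input: good monotone weights and lower bounds for the absolute value -/
structure Inp (a : ℕ → ℝ) : Prop where
  cut : ∀ σ θ A : ℝ, 1 / 2 < σ → σ < θ → θ < 1 → 0 < A → Real.pi * hsum σ < Real.log A →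
    ∃ W : ℝ → ℝ, CutW A W ∧ Monotone W ∧ bdW a θ W
  low : ∀ c θ : ℝ, 0 < c → 1 / 2 ≤ θ → (∃ s : ℂ, riemannZeta s = 0 ∧ θ < s.re) →
    ∀ᶠ x : ℝ in atTop, x ^ (1 + θ) ≤ ∫ y in x..(x + c * x), |SF a y|
  up : ∀ σ θ : ℝ, 1 / 2 ≤ σ → (∀ s : ℂ, σ < s.re → riemannZeta s ≠ 0) → σ < θ →
    ∃ C : ℝ, ∀ y : ℝ, 1 ≤ y → |SF a y| ≤ C * y ^ θ

variable {a : ℕ → ℝ}

theorem re_lt_one {ρ : ℂ} (h : riemannZeta ρ = 0) : ρ.re < 1 := by
  by_contra h2
  exact riemannZeta_ne_zero_of_one_le_re (not_lt.1 h2) h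

/-- **The one-sided theorem.** -/
theorem Inp.one (h : Inp a) {σ A : ℝ} (h1 : 1 / 2 < σ) (h2 : σ < 1) (hA0 : 0 < A)
    (hA : Real.pi * hsum σ < Real.log A) {ρ : ℂ} (hz : riemannZeta ρ = 0) (hρ : σ < ρ.re) {ε : ℝ} (hε : 0 < ε)
    {s : ℝ} (hs : s = 1 ∨ s = -1) :
    ∀ᶠ X : ℝ in atTop, X ^ (1 + ρ.re - ε) ≤ ∫ u in X..(A * X), max (s * SF a u) 0 := by
  have hρ1 := re_lt_one hz
  have hH0 : 0 ≤ hsum σ := tsum_nonneg fun ρ => div_nonneg (Nat.cast_nonneg _) ρ.2.2.2.le
  have hlog : 0 < Real.log A := lt_of_le_of_lt (mul_nonneg Real.pi_pos.le hH0) hA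
  set l : ℝ := (Real.pi * hsum σ + Real.log A) / 2 with hl
  have hl0 : 0 < l := by
    rw [hl]
    have := mul_nonneg Real.pi_pos.le hH0
    linarith
  have hlA : l < Real.log A := by rw [hl]; linarith
  have hlp : Real.pi * hsum σ < l := by rw [hl]; linarith
  set ε' : ℝ := min (ε / 2) ((ρ.re - σ) / 3) with hε'
  have hε'0 : 0 < ε' := lt_min (by linarith) (by linarith)
  have hε'1 : ε' ≤ ε / 2 := min_le_left _ _
  have hε'2 : ε' ≤ (ρ.re - σ) / 3 := min_le_right _ _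
  obtain ⟨W, hW, hm, hb⟩ := h.cut σ (σ + ε') (Real.exp l) h1 (by linarith) (by linarith) (Real.exp_pos _)
    (by rw [Real.log_exp]; exact hlp)
  have hA1 : 1 < Real.exp l := Real.one_lt_exp_iff.2 hl0
  have hAA : Real.exp l < A := by
    rw [← Real.lt_log_iff_exp_lt hA0]
    exact hlA
  obtain ⟨c0, hc0, hev⟩ := transfer hA1 hW hm hb (by linarith) hAA (β := ρ.re - ε') (by linarith)
    (fun c hc => h.low c (ρ.re - ε') hc (by linarith) ⟨ρ, hz, by linarith⟩) hs
  filter_upwards [hev, (tendsto_rpow_atTop (show 0 < ε - ε' by linarith)).eventually_ge_atTop (1 / c0),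
    eventually_gt_atTop 0] with X hX1 hX2 hX0
  refine le_trans ?_ hX1
  rw [div_le_iff₀ hc0] at hX2
  calc X ^ (1 + ρ.re - ε) = X ^ (1 + ρ.re - ε) * 1 := (mul_one _).symm
    _ ≤ X ^ (1 + ρ.re - ε) * (X ^ (ε - ε') * c0) := by gcongr
    _ = c0 * X ^ (1 + (ρ.re - ε')) := by
        rw [← mul_assoc, ← Real.rpow_add hX0, mul_comm]
        congr 2
        ring

/-- the sums over the zeros near the line `1` are small -/
theorem hsum_small {η : ℝ} (hη : 0 < η) : ∃ σ₀ : ℝ, 1 / 2 < σ₀ ∧ σ₀ < 1 ∧ ∀ σ : ℝ, σ₀ ≤ σ → σ < 1 → hsum σ < η := by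
  have hs := hsum_summable (σ := 3 / 4) (by norm_num) (by norm_num)
  obtain ⟨F, hF⟩ := (hs.hasSum.eventually (Metric.ball_mem_nhds _ hη)).exists_forall_of_atTop
  have hF0 := hF F le_rfl
  -- the zeros in F have real parts at most some bound below 1
  obtain ⟨B, hB1, hB⟩ : ∃ B : ℝ, B < 1 ∧ ∀ ρ ∈ F, (ρ : ℂ).re ≤ B := by
    classical
    by_cases hne : F.Nonempty
    · refine ⟨F.sup' hne fun ρ => (ρ : ℂ).re, ?_, fun ρ hρ => Finset.le_sup' (fun ρ : HZ (3 / 4) => (ρ : ℂ).re) hρ⟩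
      rw [Finset.sup'_lt_iff]
      exact fun ρ _ => re_lt_one ρ.2.1
    · rw [Finset.not_nonempty_iff_eq_empty] at hne
      exact ⟨0, by norm_num, fun ρ hρ => by rw [hne] at hρ; simp at hρ⟩
  refine ⟨max (3 / 4) ((B + 1) / 2), lt_max_of_lt_left (by norm_num), max_lt (by norm_num) (by linarith), ?_⟩
  intro σ hσ hσ1
  have hσ3 : 3 / 4 ≤ σ := (le_max_left _ _).trans hσ
  have hσB : B < σ := lt_of_lt_of_le (by linarith) ((le_max_right _ _).trans hσ)
  set f : HZ (3 / 4) → ℝ := fun ρ => (analyticOrderNatAt riemannZeta (ρ : ℂ) : ℝ) / (ρ : ℂ).im with hf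
  have hf0 : ∀ ρ, 0 ≤ f ρ := fun ρ => div_nonneg (Nat.cast_nonneg _) ρ.2.2.2.le
  have htail : ∑' ρ, f ρ - ∑ ρ ∈ F, f ρ < η := by
    have h1 := hF0
    rw [Real.dist_eq, abs_lt] at h1
    linarith [h1.1]
  have hle : hsum σ ≤ ∑' ρ, f ρ - ∑ ρ ∈ F, f ρ := by
    classical
    have hcompl := hs.sum_add_tsum_compl (s := F)
    have e : ∑' ρ, f ρ - ∑ ρ ∈ F, f ρ = ∑' ρ : ((F : Set (HZ (3 / 4)))ᶜ : Set (HZ (3 / 4))), f ρ := by
      rw [← hcompl]
      ring
    rw [e]
    unfold hsum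
    have hi : ∀ ρ : HZ σ, (⟨(ρ : ℂ), ρ.2.1, hσ3.trans ρ.2.2.1, ρ.2.2.2⟩ : HZ (3 / 4)) ∈
        ((F : Set (HZ (3 / 4)))ᶜ : Set (HZ (3 / 4))) := by
      intro ρ hρ
      have := hB _ hρ
      have h2 := ρ.2.2.1
      simp only at this
      linarith
    set i : HZ σ → ((F : Set (HZ (3 / 4)))ᶜ : Set (HZ (3 / 4))) := fun ρ =>
      ⟨⟨(ρ : ℂ), ρ.2.1, hσ3.trans ρ.2.2.1, ρ.2.2.2⟩, hi ρ⟩ with hidef
    have hinj : Function.Injective i := by
      intro x y hxy
      apply Subtype.ext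
      have := congrArg (fun z : ((F : Set (HZ (3 / 4)))ᶜ : Set (HZ (3 / 4))) => ((z : HZ (3 / 4)) : ℂ)) hxy
      exact this
    have hsub : Summable fun ρ : ((F : Set (HZ (3 / 4)))ᶜ : Set (HZ (3 / 4))) => f ρ := hs.subtype _
    refine Summable.tsum_le_tsum_of_inj i hinj (fun c _ => hf0 _) (fun ρ => le_rfl) ?_ hsub
    exact hsum_summable (by linarith) hσ1
  linarith

/-- **The criterion for a zero-free half plane.** -/
theorem Inp.quasi (h : Inp a) {s : ℝ} (hs : s = 1 ∨ s = -1) :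
    (∃ σ₀ : ℝ, σ₀ < 1 ∧ ∀ z : ℂ, σ₀ < z.re → riemannZeta z ≠ 0) ↔
      ∃ A δ : ℝ, 1 < A ∧ 0 < δ ∧ ∃ᶠ X : ℝ in atTop, ∫ u in X..(A * X), max (s * SF a u) 0 ≤ X ^ (2 - δ) := by
  constructor
  · rintro ⟨σ₀, h1, h2⟩
    set σ : ℝ := max σ₀ (1 / 2) with hσ
    have hσ1 : σ < 1 := max_lt h1 (by norm_num)
    have hσ0 : 1 / 2 ≤ σ := le_max_right _ _
    set θ : ℝ := (σ + 1) / 2 with hθ
    obtain ⟨C, hC⟩ := h.up σ θ hσ0 (fun z hz => h2 z (lt_of_le_of_lt (le_max_left _ _) hz)) (by linarith)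
    have hC0 : 0 ≤ C := by
      have := (abs_nonneg _).trans (hC 1 le_rfl)
      simpa using this
    refine ⟨2, (1 - θ) / 2, by norm_num, by linarith, Eventually.frequently ?_⟩
    have hθ1 : θ < 1 := by rw [hθ]; linarith
    filter_upwards [(tendsto_rpow_atTop (show 0 < (1 - θ) / 2 by linarith)).eventually_ge_atTop (C * 2 ^ θ),
      eventually_ge_atTop (1 : ℝ)] with X hX1 hX2
    have hX0 : 0 < X := by linarith
    have hθ0 : 0 < θ := by linarith
    calc ∫ u in X..(2 * X), max (s * SF a u) 0 ≤ ∫ u in X..(2 * X), C * (2 * X) ^ θ := by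
          refine intervalIntegral.integral_mono_on (by linarith) (pos_int a s _ _ hs) intervalIntegrable_const
            fun u hu => ?_
          have h3 : max (s * SF a u) 0 ≤ |SF a u| := by
            rcases hs with rfl | rfl
            · rw [one_mul]; exact max_le (le_abs_self _) (abs_nonneg _)
            · rw [neg_one_mul]; exact max_le (neg_le_abs _) (abs_nonneg _)
          refine h3.trans ((hC u (by linarith [hu.1])).trans ?_)
          exact mul_le_mul_of_nonneg_left (Real.rpow_le_rpow (by linarith [hu.1]) hu.2 hθ0.le) hC0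
      _ = (C * 2 ^ θ) * (X * X ^ θ) := by
          rw [intervalIntegral.integral_const, smul_eq_mul, Real.mul_rpow (by norm_num) hX0.le]
          ring
      _ ≤ X ^ ((1 - θ) / 2) * (X * X ^ θ) := by gcongr
      _ = X ^ (2 - (1 - θ) / 2) := by
          rw [mul_comm X, ← Real.rpow_add_one hX0.ne', ← Real.rpow_add hX0]
          congr 1
          ring
  · rintro ⟨A, δ, hA, hδ, hfr⟩
    have hlog : 0 < Real.log A := Real.log_pos hA
    obtain ⟨σ₁, g1, g2, g3⟩ := hsum_small (η := Real.log A / Real.pi) (div_pos hlog Real.pi_pos)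
    set σ : ℝ := max σ₁ (1 - δ / 2) with hσ
    have hσ1 : σ < 1 := max_lt g2 (by linarith)
    refine ⟨σ, hσ1, fun z hz h0 => ?_⟩
    have h5 : Real.pi * hsum σ < Real.log A := by
      have := g3 σ (le_max_left _ _) hσ1
      rw [lt_div_iff₀ Real.pi_pos] at this
      linarith
    have hzδ : 1 - δ / 2 < z.re := lt_of_le_of_lt (le_max_right _ _) hz
    have hev := h.one (lt_of_lt_of_le g1 (le_max_left _ _)) hσ1 (by linarith) h5 h0 hz (show 0 < δ / 2 by linarith) hs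
    obtain ⟨X, hX1, hX2, hX3⟩ := (hfr.and_eventually (hev.and (eventually_gt_atTop 1))).exists
    have h6 := hX2.trans hX1
    have h7 : X ^ (2 - δ) < X ^ (1 + z.re - δ / 2) := Real.rpow_lt_rpow_of_exponent_lt hX3 (by linarith)
    linarith

/-- **The criterion for the Riemann hypothesis.** -/
theorem Inp.rh (h : Inp a) {s : ℝ} (hs : s = 1 ∨ s = -1) :
    RiemannHypothesis ↔
      ∀ A ε : ℝ, 1 < A → 0 < ε → ∃ᶠ X : ℝ in atTop, ∫ u in X..(A * X), max (s * SF a u) 0 ≤ X ^ (3 / 2 + ε) := by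
  rw [rh_free]
  constructor
  · intro hfree A ε hA hε
    obtain ⟨C, hC⟩ := h.up (1 / 2) (1 / 2 + ε / 2) le_rfl hfree (by linarith)
    have hC0 : 0 ≤ C := by
      have := (abs_nonneg _).trans (hC 1 le_rfl)
      simpa using this
    refine Eventually.frequently ?_
    filter_upwards [(tendsto_rpow_atTop (show 0 < ε / 2 by linarith)).eventually_ge_atTop
      ((A - 1) * C * A ^ (1 / 2 + ε / 2)), eventually_ge_atTop (1 : ℝ)] with X hX1 hX2
    have hX0 : 0 < X := by linarith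
    have hXA : X ≤ A * X := by nlinarith
    calc ∫ u in X..(A * X), max (s * SF a u) 0 ≤ ∫ u in X..(A * X), C * (A * X) ^ (1 / 2 + ε / 2) := by
          refine intervalIntegral.integral_mono_on hXA (pos_int a s _ _ hs) intervalIntegrable_const
            fun u hu => ?_
          have h3 : max (s * SF a u) 0 ≤ |SF a u| := by
            rcases hs with rfl | rfl
            · rw [one_mul]; exact max_le (le_abs_self _) (abs_nonneg _)
            · rw [neg_one_mul]; exact max_le (neg_le_abs _) (abs_nonneg _)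
          refine h3.trans ((hC u (by linarith [hu.1])).trans ?_)
          exact mul_le_mul_of_nonneg_left (Real.rpow_le_rpow (by linarith [hu.1]) hu.2 (by linarith)) hC0
      _ = ((A - 1) * C * A ^ (1 / 2 + ε / 2)) * (X * X ^ (1 / 2 + ε / 2)) := by
          rw [intervalIntegral.integral_const, smul_eq_mul, Real.mul_rpow (by linarith) hX0.le]
          ring
      _ ≤ X ^ (ε / 2) * (X * X ^ (1 / 2 + ε / 2)) := by gcongr
      _ = X ^ (3 / 2 + ε) := by
          rw [mul_comm X, ← Real.rpow_add_one hX0.ne', ← Real.rpow_add hX0]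
          congr 1
          ring
  · intro hall z hz h0
    have hz1 := re_lt_one h0
    set σ : ℝ := (1 / 2 + z.re) / 2 with hσ
    have hH0 : 0 ≤ hsum σ := tsum_nonneg fun ρ => div_nonneg (Nat.cast_nonneg _) ρ.2.2.2.le
    set A : ℝ := Real.exp (Real.pi * hsum σ + 1) with hA
    have hA1 : 1 < A := Real.one_lt_exp_iff.2 (by have := mul_nonneg Real.pi_pos.le hH0; linarith)
    have hev := h.one (σ := σ) (A := A) (by linarith) (by linarith) (by linarith)
      (by rw [hA, Real.log_exp]; linarith) h0 (by linarith) (show 0 < (z.re - 1 / 2) / 2 by linarith) hs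
    obtain ⟨X, hX1, hX2, hX3⟩ := ((hall A ((z.re - 1 / 2) / 4) hA1 (by linarith)).and_eventually
      (hev.and (eventually_gt_atTop 1))).exists
    have h6 := hX2.trans hX1
    have h7 : X ^ (3 / 2 + (z.re - 1 / 2) / 4) < X ^ (1 + z.re - (z.re - 1 / 2) / 2) :=
      Real.rpow_lt_rpow_of_exponent_lt hX3 (by linarith)
    linarith

/-- the Moebius function -/
def muR (n : ℕ) : ℝ := ((ArithmeticFunction.moebius n : ℤ) : ℝ)

theorem inp_mu : Inp muR := by
  refine ⟨fun σ θ A h1 h2 h3 hA h => ?_, fun c θ hc hθ hz => ?_, fun σ θ h1 h2 h3 => ?_⟩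
  · rw [show Real.pi * hsum σ = H353.HT σ from ((Pool.Agent.R303.HT_zeta σ h1 (by linarith)).2).symm] at h
    obtain ⟨W, a1, a2, a3, a4⟩ := Pool.Agent.R303.W_mono_gen σ θ A h1 h2 h3 hA h
    exact ⟨W, a1, a2, a3⟩
  · have h1 := Pool.Agent.W190.moebius_window (κ := 0) (δ := 0) le_rfl hc (by norm_num) hθ
      (by nlinarith [sq_nonneg (2 * θ - 1)]) hz
    filter_upwards [h1] with x hx
    have := (hx 0 (by simp)).le
    simp only [Real.rpow_zero, div_one, Polynomial.eval_zero, sub_zero] at this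
    exact this
  · exact H353.mertens_of_free σ h1 h2 θ h3

end

end Pool.Agent.N739.OW
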