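import Pool.Agent.N739.OW.ShortMain

/-!
# Primes in short intervals: both signs in every window (helper739)
-/

set_option autoImplicit false

open MeasureTheory Filter Topology Set
open scoped ContDiff
open H353 (CutW bdW aL)
open Pool.Agent.W190 (SF rh_free)

namespace Pool.Agent.N739.OW

noncomputable section

/-- the von Mangoldt function -/
abbrev La : ℕ → ℝ := fun n => ArithmeticFunction.vonMangoldt n

theorem sf_aL (u : ℝ) : SF aL u = SF La u - ⌊u⌋₊ := by
  unfold SF
  have : ∀ n ∈ Finset.Icc 1 ⌊u⌋₊, aL n = La n - 1 := by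
    intro n hn
    rw [Finset.mem_Icc] at hn
    unfold aL
    rw [if_neg (by omega)]
  rw [Finset.sum_congr rfl this, Finset.sum_sub_distrib]
  simp

theorem inp_psi : SInp La aL 1 := by
  refine ⟨fun u hu => ?_, fun σ θ A h1 h2 h3 hA h => ?_, fun c θ e0 hc hθ he0 hz => ?_,
    fun σ0 κ' h1 hfree hκ' => ?_⟩
  · rw [sf_aL]
    unfold EE
    have h1 := Nat.floor_le hu
    have h2 := Nat.lt_floor_add_one u
    rw [abs_one, abs_le]
    constructor <;> linarith
  · rw [show Real.pi * hsum σ = H353.HT σ from ((Pool.Agent.R303.HT_zeta σ h1 (by linarith)).2).symm] at h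
    obtain ⟨W, a1, a2, a3, a4⟩ := Pool.Agent.R303.W_mono_gen σ θ A h1 h2 h3 hA h
    exact ⟨W, a1, a2, a4⟩
  · have h1 := Pool.Agent.R303.SW.psi_short (κ := 0) (c := c) (e0 := e0) le_rfl hc hθ
      (by nlinarith [sq_nonneg (2 * θ - 1)]) hz he0
    filter_upwards [h1] with X hX H hH hHX
    have h2 := hX H hH hHX
    rw [Real.rpow_zero, div_one] at h2
    refine h2.trans (le_of_eq (intervalIntegral.integral_congr fun y _ => ?_))
    show |Chebyshev.psi (y + H) - Chebyshev.psi y - H| = |EE La 1 (y + H) - EE La 1 y|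
    unfold EE
    rw [← Pool.Agent.W190.SF_psi, ← Pool.Agent.W190.SF_psi]
    congr 1
    ring
  · have key : ∃ C : ℝ, ∀ y : ℝ, 1 ≤ y → |Chebyshev.psi y - y| ≤ C * y ^ κ' := by
      rcases le_total κ' 1 with h | h
      · obtain ⟨C, _, hC⟩ := Pool.Agent.W190.psi_of_free σ0 h1 hfree κ' hκ' h
        exact ⟨C, hC⟩
      · refine ⟨Real.log 4 + 4 + 1, fun y hy => ?_⟩
        have h1 := Chebyshev.psi_le_const_mul_self (x := y) (by linarith)
        have h2 := Chebyshev.psi_nonneg y
        have h3 : y ≤ y ^ κ' := by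
          conv_lhs => rw [← Real.rpow_one y]
          exact Real.rpow_le_rpow_of_exponent_le hy h
        have h5 : 0 ≤ Real.log 4 + 4 + 1 := by
          have := Real.log_nonneg (show (1:ℝ) ≤ 4 by norm_num)
          linarith
        have h6 : |Chebyshev.psi y - y| ≤ (Real.log 4 + 4 + 1) * y := by
          rw [abs_le]
          constructor <;> nlinarith
        exact h6.trans (mul_le_mul_of_nonneg_left h3 h5)
    obtain ⟨C, hC⟩ := key
    refine ⟨C, fun y hy => ?_⟩
    have := hC y hy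
    unfold EE
    rw [one_mul]
    rw [← Pool.Agent.W190.SF_psi] at this
    exact this

/-- `ψ(x; H)` -/
def psiH (x H : ℝ) : ℝ := ∑ n ∈ Finset.Icc ⌈x - H / 2⌉₊ ⌊x + H / 2⌋₊, ArithmeticFunction.vonMangoldt n

theorem psiH_meas (H : ℝ) : Measurable fun x => psiH x H := by
  have h1 : Measurable fun x : ℝ => (⌈x - H / 2⌉₊, ⌊x + H / 2⌋₊) :=
    (Nat.measurable_ceil.comp (measurable_id.sub_const _)).prodMk
      (Nat.measurable_floor.comp (measurable_id.add_const _))
  exact (measurable_of_countable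
    (fun p : ℕ × ℕ => ∑ n ∈ Finset.Icc p.1 p.2, (ArithmeticFunction.vonMangoldt n : ℝ))).comp h1

theorem psiH_nonneg (x H : ℝ) : 0 ≤ psiH x H :=
  Finset.sum_nonneg fun n _ => ArithmeticFunction.vonMangoldt_nonneg

theorem psiH_le {x q H : ℝ} (h : x ≤ q) :
    psiH x H ≤ ∑ n ∈ Finset.Icc 0 ⌊q + H / 2⌋₊, (ArithmeticFunction.vonMangoldt n : ℝ) := by
  unfold psiH
  refine Finset.sum_le_sum_of_subset_of_nonneg ?_ fun n _ _ => ArithmeticFunction.vonMangoldt_nonneg
  refine Finset.Icc_subset_Icc (Nat.zero_le _) ?_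
  exact Nat.floor_le_floor (by linarith)

/-- integrability of functions of `ψ(x; H)` -/
theorem psiH_int (H : ℝ) {g : ℝ → ℝ} (hg : Continuous g) (p q : ℝ) :
    IntervalIntegrable (fun x => g (psiH x H)) volume p q := by
  set B : ℝ := ∑ n ∈ Finset.Icc 0 ⌊max p q + H / 2⌋₊, (ArithmeticFunction.vonMangoldt n : ℝ) with hB
  obtain ⟨M, hM⟩ := (isCompact_Icc (a := (0 : ℝ)) (b := B)).exists_bound_of_continuousOn hg.continuousOn
  rw [intervalIntegrable_iff]
  refine Measure.integrableOn_of_bounded (M := M) (by simp) ?_ ?_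
  · exact (hg.measurable.comp (psiH_meas H)).aestronglyMeasurable
  · refine (ae_restrict_iff' measurableSet_uIoc).2 (Eventually.of_forall fun u hu => ?_)
    exact hM _ ⟨psiH_nonneg _ _, psiH_le hu.2⟩

theorem psiH_eq {x H : ℝ} (hH : 0 ≤ H) (h1 : 0 < x - H / 2) (h2 : ∀ n : ℕ, x - H / 2 ≠ n) :
    psiH x H = SF La (x + H / 2) - SF La (x - H / 2) := by
  unfold psiH SF
  have hc : ⌈x - H / 2⌉₊ = ⌊x - H / 2⌋₊ + 1 := by
    rw [Nat.ceil_eq_iff (by omega)]
    constructor
    · rw [Nat.add_sub_cancel]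
      exact lt_of_le_of_ne (Nat.floor_le h1.le) (fun h => h2 _ h.symm)
    · push_cast
      exact (Nat.lt_floor_add_one _).le
  have hle : ⌊x - H / 2⌋₊ ≤ ⌊x + H / 2⌋₊ := Nat.floor_le_floor (by linarith)
  rw [hc, eq_sub_iff_add_eq, add_comm]
  have e1 : ∀ n : ℕ, Finset.Icc 1 n = Finset.Ioc 0 n := fun n => by
    ext; simp only [Finset.mem_Icc, Finset.mem_Ioc]; omega
  have e2 : Finset.Icc (⌊x - H / 2⌋₊ + 1) ⌊x + H / 2⌋₊ = Finset.Ioc ⌊x - H / 2⌋₊ ⌊x + H / 2⌋₊ := by
    ext; simp only [Finset.mem_Icc, Finset.mem_Ioc]; omega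
  rw [e1, e1, e2]
  exact Finset.sum_Ioc_consecutive _ (Nat.zero_le _) hle

theorem one_int_eq {H p q s : ℝ} (hH : 0 ≤ H) (hp : H / 2 ≤ p) (hpq : p ≤ q) :
    ∫ x in p..q, max (s * (psiH x H - H)) 0 =
      ∫ t in (p - H / 2)..(q - H / 2), max (s * (EE La 1 (t + H) - EE La 1 t)) 0 := by
  rw [← intervalIntegral.integral_comp_sub_right (fun t => max (s * (EE La 1 (t + H) - EE La 1 t)) 0) (H / 2)]
  refine intervalIntegral.integral_congr_ae ?_
  have hcount : (Set.range fun n : ℕ => (n : ℝ) + H / 2).Countable := Set.countable_range _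
  filter_upwards [hcount.ae_notMem volume] with x hx hxI
  rw [uIoc_of_le hpq] at hxI
  rw [psiH_eq hH (by linarith [hxI.1]) (fun n hn => hx ⟨n, by simp only; linarith⟩)]
  unfold EE
  rw [show x - H / 2 + H = x + H / 2 by ring]
  congr 2
  ring

/-- **Both signs in short intervals, in every window.** -/
theorem psi_one {σ A : ℝ} (h1 : 1 / 2 < σ) (h2 : σ < 1) (hA1 : 1 < A)
    (hlog : 2 * (Real.pi * hsum σ) < Real.log A) {ρ : ℂ} (hz : riemannZeta ρ = 0) (hρ : σ < ρ.re)
    {ε : ℝ} (hε : 0 < ε) {s : ℝ} (hs : s = 1 ∨ s = -1) :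
    ∀ᶠ X : ℝ in atTop, ∀ H : ℝ, 0 < H → H ≤ X ^ (1 - ε) →
      H * X ^ (ρ.re - ε) ≤ ∫ x in X..(A * X), max (s * (psiH x H - H)) 0 := by
  have hA0 : 0 < A := by linarith
  have hH0 : 0 ≤ Real.pi * hsum σ := mul_nonneg Real.pi_pos.le
    (tsum_nonneg fun ρ => div_nonneg (Nat.cast_nonneg _) ρ.2.2.2.le)
  -- a smaller ratio
  set l : ℝ := (2 * (Real.pi * hsum σ) + Real.log A) / 2 with hl
  set B : ℝ := Real.exp l with hB
  have hl0 : 0 < l := by rw [hl]; linarith
  have hB1 : 1 < B := Real.one_lt_exp_iff.2 hl0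
  have hBA : B < A := by
    rw [hB, ← Real.lt_log_iff_exp_lt hA0]
    linarith
  have hev := inp_psi.one h1 h2 hB1 (by rw [hB, Real.log_exp]; linarith) hz hρ hε hε hs
  have hsm := ev_pow (show 1 - ε < 1 by linarith) (1 / (A - B))
  have hev2 := (tendsto_id.const_mul_atTop (show (0 : ℝ) < 1 by norm_num)).eventually hev
  filter_upwards [hev, hsm, eventually_ge_atTop (1 : ℝ)] with X w1 w2 hX1 H hH hHX
  have hX0 : 0 < X := by linarith
  have hAB : 0 < A - B := by linarith
  have hHX2 : H ≤ (A - B) * X := by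
    rw [Real.rpow_one] at w2
    have h3 : 1 / (A - B) * H ≤ X := le_trans (mul_le_mul_of_nonneg_left hHX (by positivity)) w2
    rw [one_div, inv_mul_le_iff₀ hAB] at h3
    exact h3
  -- the window [X + H/2, A X] in x contains a window of ratio B in t
  have hle : X + H / 2 ≤ A * X := by nlinarith
  have hmintx : ∀ p q : ℝ, IntervalIntegrable (fun x => max (s * (psiH x H - H)) 0) volume p q := fun p q =>
    psiH_int H (g := fun y => max (s * (y - H)) 0) (by fun_prop) p q
  have e1 : ∫ x in (X + H / 2)..(B * X + H / 2), max (s * (psiH x H - H)) 0 ≤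
      ∫ x in X..(A * X), max (s * (psiH x H - H)) 0 := by
    refine intervalIntegral.integral_mono_interval (by linarith) (by nlinarith) (by nlinarith) ?_ (hmintx _ _)
    exact Eventually.of_forall fun t => le_max_right _ _
  refine le_trans ?_ e1
  rw [one_int_eq hH.le (by linarith) (by nlinarith), add_sub_cancel_right, add_sub_cancel_right]
  exact w1 H hH hHX

/-- Cauchy-Schwarz -/
theorem cs {f : ℝ → ℝ} {p q m : ℝ} (hpq : p < q) (hm : 0 < m) (hf : IntervalIntegrable f volume p q)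
    (hf2 : IntervalIntegrable (fun x => f x ^ 2) volume p q) (h : m ≤ ∫ x in p..q, f x) :
    m ^ 2 / (q - p) ≤ ∫ x in p..q, f x ^ 2 := by
  have hd : 0 < q - p := by linarith
  have h1 : ∫ x in p..q, (2 * (m / (q - p)) * f x - (m / (q - p)) ^ 2) ≤ ∫ x in p..q, f x ^ 2 := by
    refine intervalIntegral.integral_mono_on hpq.le ((hf.const_mul _).sub intervalIntegrable_const) hf2 fun x _ => ?_
    nlinarith [sq_nonneg (f x - m / (q - p))]
  rw [intervalIntegral.integral_sub (hf.const_mul _) intervalIntegrable_const,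
    intervalIntegral.integral_const_mul, intervalIntegral.integral_const, smul_eq_mul] at h1
  have h2 : 2 * (m / (q - p)) * m ≤ 2 * (m / (q - p)) * ∫ x in p..q, f x :=
    mul_le_mul_of_nonneg_left h (by positivity)
  have h3 : 2 * (m / (q - p)) * m - (q - p) * (m / (q - p)) ^ 2 = m ^ 2 / (q - p) := by
    field_simp
    ring
  linarith

end

end Pool.Agent.N739.OW
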