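import Pool.Agent.N739.OW.Psi

/-!
# Criteria from the one-sided variance of primes in short intervals (helper739)
-/

set_option autoImplicit false

open MeasureTheory Filter Topology Set
open Pool.Agent.W190 (SF rh_free)

namespace Pool.Agent.N739.OW

noncomputable section

theorem upper {A C θ X H : ℝ} (hA : 1 < A) (hC0 : 0 ≤ C) (hC : ∀ y : ℝ, 1 ≤ y → |EE La 1 y| ≤ C * y ^ θ)
    (hθ : 0 ≤ θ) (hX : 2 ≤ X) (hH : 0 ≤ H) (hHX : H ≤ X) :
    ∀ᵐ x : ℝ, x ∈ uIoc X (A * X) → |psiH x H - H| ≤ 2 * C * ((A + 1) * X) ^ θ := by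
  have hcount : (Set.range fun n : ℕ => (n : ℝ) + H / 2).Countable := Set.countable_range _
  have hXA : X ≤ A * X := le_mul_of_one_le_left (by linarith) hA.le
  filter_upwards [hcount.ae_notMem volume] with x hx hxI
  rw [uIoc_of_le hXA] at hxI
  rw [psiH_eq hH (by linarith [hxI.1]) (fun n hn => hx ⟨n, by simp only; linarith⟩)]
  have e : SF La (x + H / 2) - SF La (x - H / 2) - H = EE La 1 (x + H / 2) - EE La 1 (x - H / 2) := by
    unfold EE
    ring
  rw [e]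
  have b1 : |EE La 1 (x + H / 2)| ≤ C * ((A + 1) * X) ^ θ := by
    refine (hC _ (by linarith [hxI.1])).trans (mul_le_mul_of_nonneg_left ?_ hC0)
    exact Real.rpow_le_rpow (by linarith [hxI.1]) (by linarith [hxI.2]) hθ
  have b2 : |EE La 1 (x - H / 2)| ≤ C * ((A + 1) * X) ^ θ := by
    refine (hC _ (by linarith [hxI.1])).trans (mul_le_mul_of_nonneg_left ?_ hC0)
    exact Real.rpow_le_rpow (by linarith [hxI.1]) (by linarith [hxI.2]) hθ
  calc |EE La 1 (x + H / 2) - EE La 1 (x - H / 2)| ≤ |EE La 1 (x + H / 2)| + |EE La 1 (x - H / 2)| := abs_sub _ _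
    _ ≤ _ := by linarith

theorem max_le_abs' {s y : ℝ} (hs : s = 1 ∨ s = -1) : max (s * y) 0 ≤ |y| := by
  rcases hs with rfl | rfl
  · rw [one_mul]; exact max_le (le_abs_self _) (abs_nonneg _)
  · rw [neg_one_mul]; exact max_le (neg_le_abs _) (abs_nonneg _)

theorem psi_quasi {s : ℝ} (hs : s = 1 ∨ s = -1) :
    (∃ σ₀ : ℝ, σ₀ < 1 ∧ ∀ z : ℂ, σ₀ < z.re → riemannZeta z ≠ 0) ↔
      ∃ A δ ε : ℝ, 1 < A ∧ 0 < δ ∧ 0 < ε ∧ ε < 1 ∧ ∃ᶠ X : ℝ in atTop, ∃ H : ℝ, 1 ≤ H ∧ H ≤ X ^ (1 - ε) ∧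
        ∫ x in X..(A * X), max (s * (psiH x H - H)) 0 ≤ H * X ^ (1 - δ) := by
  constructor
  · rintro ⟨σ₀, h1, h2⟩
    set σ : ℝ := max σ₀ (1 / 2) with hσ
    have hσ1 : σ < 1 := max_lt h1 (by norm_num)
    have hσ0 : 1 / 2 ≤ σ := le_max_right _ _
    set θ : ℝ := (σ + 1) / 2 with hθ
    have hθ1 : θ < 1 := by rw [hθ]; linarith
    have hθ0 : 0 ≤ θ := by rw [hθ]; linarith
    obtain ⟨C, hC⟩ := inp_psi.up σ θ hσ0 (fun z hz => h2 z (lt_of_le_of_lt (le_max_left _ _) hz)) (by linarith)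
    have hC0 : 0 ≤ C := by
      have := (abs_nonneg _).trans (hC 1 le_rfl)
      simpa using this
    refine ⟨2, (1 - θ) / 4, (1 - θ) / 4, by norm_num, by linarith, by linarith, by linarith,
      Eventually.frequently ?_⟩
    have hev := ev_pow (show 1 + θ < 1 - (1 - θ) / 4 + (1 - (1 - θ) / 4) by linarith) (2 * C * 3 ^ θ)
    filter_upwards [hev, eventually_ge_atTop (2 : ℝ)] with X w1 hX
    have hX0 : 0 < X := by linarith
    have hH1 : 1 ≤ X ^ (1 - (1 - θ) / 4) := Real.one_le_rpow (by linarith) (by linarith)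
    have hHX : X ^ (1 - (1 - θ) / 4) ≤ X := by
      calc X ^ (1 - (1 - θ) / 4) ≤ X ^ (1 : ℝ) := Real.rpow_le_rpow_of_exponent_le (by linarith) (by linarith)
        _ = X := Real.rpow_one X
    refine ⟨X ^ (1 - (1 - θ) / 4), hH1, le_rfl, ?_⟩
    have hup := upper (A := 2) (by norm_num) hC0 hC hθ0 hX (by linarith : 0 ≤ X ^ (1 - (1 - θ) / 4)) hHX
    have hb := intervalIntegral.norm_integral_le_of_norm_le_const_ae (a := X) (b := 2 * X)
      (f := fun x => max (s * (psiH x (X ^ (1 - (1 - θ) / 4)) - X ^ (1 - (1 - θ) / 4))) 0)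
      (C := 2 * C * ((2 + 1) * X) ^ θ) (by
        filter_upwards [hup] with x hx hxI
        rw [Real.norm_eq_abs, abs_of_nonneg (le_max_right _ _)]
        exact (max_le_abs' hs).trans (hx hxI))
    refine (le_abs_self _).trans ?_
    rw [Real.norm_eq_abs] at hb
    refine hb.trans ?_
    rw [show 2 * X - X = X by ring, abs_of_pos hX0, show (2 + 1 : ℝ) = 3 by norm_num,
      Real.mul_rpow (by norm_num) hX0.le, ← Real.rpow_add hX0]
    calc 2 * C * (3 ^ θ * X ^ θ) * X = 2 * C * 3 ^ θ * (X ^ θ * X) := by ring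
      _ = 2 * C * 3 ^ θ * X ^ (1 + θ) := by
          rw [← Real.rpow_add_one hX0.ne', add_comm θ 1]
      _ ≤ _ := w1
  · rintro ⟨A, δ, ε, hA, hδ, hε, hε1, hfr⟩
    have hlog : 0 < Real.log A := Real.log_pos hA
    have hpi := Real.pi_pos
    obtain ⟨σ₁, g1, g2, g3⟩ := hsum_small (η := Real.log A / (2 * Real.pi)) (by positivity)
    set σ : ℝ := max σ₁ (1 - δ / 2) with hσ
    have hσ1 : σ < 1 := max_lt g2 (by linarith)
    refine ⟨σ, hσ1, fun z hz h0 => ?_⟩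
    have h5 : 2 * (Real.pi * hsum σ) < Real.log A := by
      have := g3 σ (le_max_left _ _) hσ1
      rw [lt_div_iff₀ (by positivity)] at this
      linarith
    have hzδ : 1 - δ / 2 < z.re := lt_of_le_of_lt (le_max_right _ _) hz
    set ε' : ℝ := min ε (δ / 4) with hε'
    have hε'0 : 0 < ε' := lt_min hε (by linarith)
    have hε'1 : ε' ≤ ε := min_le_left _ _
    have hε'2 : ε' ≤ δ / 4 := min_le_right _ _
    have hev := psi_one (lt_of_lt_of_le g1 (le_max_left _ _)) hσ1 hA h5 h0 hz hε'0 hs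
    obtain ⟨X, ⟨H, hH1, hHX, hle⟩, hX2, hX3⟩ := (hfr.and_eventually (hev.and (eventually_gt_atTop 1))).exists
    have h6 := (hX2 H (by linarith) (hHX.trans (Real.rpow_le_rpow_of_exponent_le hX3.le (by linarith)))).trans hle
    have h7 : X ^ (1 - δ) < X ^ (z.re - ε') := Real.rpow_lt_rpow_of_exponent_lt hX3 (by linarith)
    have h8 : H * X ^ (1 - δ) < H * X ^ (z.re - ε') := mul_lt_mul_of_pos_left h7 (by linarith)
    linarith

/-- the ratio that works -/
theorem ratio_ex (σ : ℝ) : ∃ A : ℝ, 1 < A ∧ 2 * (Real.pi * hsum σ) < Real.log A := by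
  have hH0 : 0 ≤ Real.pi * hsum σ := mul_nonneg Real.pi_pos.le
    (tsum_nonneg fun ρ => div_nonneg (Nat.cast_nonneg _) ρ.2.2.2.le)
  refine ⟨Real.exp (2 * (Real.pi * hsum σ) + 1), Real.one_lt_exp_iff.2 (by linarith), ?_⟩
  rw [Real.log_exp]
  linarith

theorem psi_rh {s : ℝ} (hs : s = 1 ∨ s = -1) :
    RiemannHypothesis ↔
      ∀ A ε : ℝ, 1 < A → 0 < ε → ε < 1 → ∃ᶠ X : ℝ in atTop, ∃ H : ℝ, X ^ (1 - ε) ≤ H ∧ H ≤ X ^ (1 - ε / 2) ∧
        ∫ x in X..(A * X), (max (s * (psiH x H - H)) 0) ^ 2 ≤ H * X ^ (1 + 2 * ε) := by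
  constructor
  · intro hRH A ε hA hε hε1
    obtain ⟨C, hC⟩ := inp_psi.up (1 / 2) (1 / 2 + ε / 8) le_rfl (rh_free.1 hRH) (by linarith)
    have hC0 : 0 ≤ C := by
      have := (abs_nonneg _).trans (hC 1 le_rfl)
      simpa using this
    refine Eventually.frequently ?_
    have hev := ev_pow (show 2 + ε / 4 < 1 - ε + (1 + 2 * ε) by linarith)
      ((A - 1) * (2 * C * (A + 1) ^ (1 / 2 + ε / 8)) ^ 2)
    filter_upwards [hev, eventually_ge_atTop (2 : ℝ)] with X w1 hX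
    have hX0 : 0 < X := by linarith
    have hX1 : 1 ≤ X := by linarith
    have hH0 : 0 < X ^ (1 - ε) := by positivity
    have hHX : X ^ (1 - ε) ≤ X := by
      calc X ^ (1 - ε) ≤ X ^ (1 : ℝ) := Real.rpow_le_rpow_of_exponent_le hX1 (by linarith)
        _ = X := Real.rpow_one X
    refine ⟨X ^ (1 - ε), le_rfl, Real.rpow_le_rpow_of_exponent_le hX1 (by linarith), ?_⟩
    have hup := upper (A := A) hA hC0 hC (by linarith) hX hH0.le hHX
    have hb := intervalIntegral.norm_integral_le_of_norm_le_const_ae (a := X) (b := A * X)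
      (f := fun x => (max (s * (psiH x (X ^ (1 - ε)) - X ^ (1 - ε))) 0) ^ 2)
      (C := (2 * C * ((A + 1) * X) ^ (1 / 2 + ε / 8)) ^ 2) (by
        filter_upwards [hup] with x hx hxI
        rw [Real.norm_eq_abs, abs_of_nonneg (by positivity)]
        exact pow_le_pow_left₀ (le_max_right _ _) ((max_le_abs' hs).trans (hx hxI)) 2)
    refine (le_abs_self _).trans ?_
    rw [Real.norm_eq_abs] at hb
    refine hb.trans ?_
    have hA1 : 0 ≤ A - 1 := by linarith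
    rw [show A * X - X = (A - 1) * X by ring, abs_of_nonneg (by positivity),
      Real.mul_rpow (by linarith) hX0.le, ← Real.rpow_add hX0]
    refine le_trans (le_of_eq ?_) w1
    have e1 : X ^ (2 + ε / 4) = (X ^ (1 / 2 + ε / 8)) ^ 2 * X := by
      rw [← Real.rpow_natCast (X ^ (1 / 2 + ε / 8)) 2, ← Real.rpow_mul hX0.le, ← Real.rpow_add_one hX0.ne']
      congr 1
      push_cast
      ring
    rw [e1]
    ring
  · intro hall
    rw [rh_free]
    intro z hz h0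
    have hz1 := re_lt_one h0
    set σ : ℝ := (1 / 2 + z.re) / 2 with hσ
    obtain ⟨A, hA, hlog⟩ := ratio_ex σ
    set ε : ℝ := (2 * z.re - 1) / 8 with hε
    have hε0 : 0 < ε := by rw [hε]; linarith
    have hε1 : ε < 1 := by rw [hε]; linarith
    have hev := psi_one (σ := σ) (A := A) (by linarith) (by linarith) hA hlog h0 (by linarith)
      (show 0 < ε / 2 by linarith) hs
    have hbig := ev_pow (show (0 : ℝ) < (2 * z.re - 1) / 2 by linarith) A
    obtain ⟨X, ⟨H, hH1, hHX, hle⟩, hX2, hX3, hX4⟩ := ((hall A ε hA hε0 hε1).and_eventually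
      (hev.and ((eventually_gt_atTop 1).and hbig))).exists
    have hX0 : 0 < X := by linarith
    have hH0 : 0 < H := lt_of_lt_of_le (by positivity) hH1
    have hXA : X < A * X := lt_mul_of_one_lt_left hX0 hA
    have h1 := hX2 H hH0 hHX
    have h2 := cs hXA (by positivity) (psiH_int H (g := fun y => max (s * (y - H)) 0) (by fun_prop) _ _)
      (psiH_int H (g := fun y => (max (s * (y - H)) 0) ^ 2) (by fun_prop) _ _) h1
    have h3 := h2.trans hle
    have hA1 : 0 < A - 1 := by linarith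
    rw [show A * X - X = (A - 1) * X by ring, div_le_iff₀ (by positivity)] at h3
    -- H X^(2 β - ε) ≤ (A - 1) X^(2+2ε)
    have h4 : H * (H * (X ^ (z.re - ε / 2)) ^ 2) ≤ H * ((A - 1) * (X ^ (1 + 2 * ε) * X)) := by
      calc H * (H * (X ^ (z.re - ε / 2)) ^ 2) = (H * X ^ (z.re - ε / 2)) ^ 2 := by ring
        _ ≤ _ := h3
        _ = _ := by ring
    have h5 := le_of_mul_le_mul_left h4 hH0
    have h6 : X ^ (1 - ε) * (X ^ (z.re - ε / 2)) ^ 2 ≤ (A - 1) * (X ^ (1 + 2 * ε) * X) :=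
      (mul_le_mul_of_nonneg_right hH1 (by positivity)).trans h5
    have e1 : X ^ (1 - ε) * (X ^ (z.re - ε / 2)) ^ 2 = X ^ ((2 * z.re - 1) / 2) * (X ^ (1 + 2 * ε) * X) := by
      rw [← Real.rpow_natCast (X ^ (z.re - ε / 2)) 2, ← Real.rpow_mul hX0.le, ← Real.rpow_add hX0,
        ← Real.rpow_add_one hX0.ne', ← Real.rpow_add hX0]
      congr 1
      push_cast
      rw [hε]
      ring
    rw [e1] at h6
    have h7 := le_of_mul_le_mul_right h6 (by positivity)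
    rw [Real.rpow_zero, mul_one] at hX4
    linarith

/-- the variance over `[1, X]` -/
theorem psi_var {ρ : ℂ} (hz : riemannZeta ρ = 0) (hρ : 1 / 2 < ρ.re) {ε : ℝ} (hε : 0 < ε) :
    ∀ᶠ X : ℝ in atTop, ∀ H : ℝ, 1 ≤ H → H ≤ X ^ (1 - ε) →
      H ^ 2 * X ^ (2 * ρ.re - 2 - ε) ≤ 1 / X * ∫ x in (1 : ℝ)..X, (psiH x H - H) ^ 2 := by
  have hρ1 := re_lt_one hz
  set σ : ℝ := (1 / 2 + ρ.re) / 2 with hσ
  obtain ⟨A, hA, hlog⟩ := ratio_ex σ
  have hA0 : 0 < A := by linarith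
  have hev := psi_one (σ := σ) (A := A) (by linarith) (by linarith) hA hlog hz (by linarith)
    (show 0 < ε / 4 by linarith) (Or.inl rfl : (1 : ℝ) = 1 ∨ (1 : ℝ) = -1)
  have hev2 : ∀ᶠ X : ℝ in atTop, ∀ H : ℝ, 0 < H → H ≤ (A⁻¹ * X) ^ (1 - ε / 4) →
      H * (A⁻¹ * X) ^ (ρ.re - ε / 4) ≤ ∫ x in (A⁻¹ * X)..(A * (A⁻¹ * X)), max (1 * (psiH x H - H)) 0 :=
    (tendsto_id.const_mul_atTop (inv_pos.2 hA0)).eventually hev
  have t1 := ev_pow (show 1 - ε < 1 - ε / 4 by linarith) ((A⁻¹ ^ (1 - ε / 4))⁻¹)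
  have t2 := ev_pow (show 2 * ρ.re - 2 - ε < 2 * ρ.re - 2 - ε / 2 by linarith) ((A⁻¹ ^ (2 * ρ.re - ε / 2))⁻¹)
  filter_upwards [hev2, t1, t2, eventually_ge_atTop A] with X w1 w2 w3 hXA H hH1 hHX
  have hX0 : 0 < X := by linarith
  have hH0 : 0 < H := by linarith
  have hAi : 0 < A⁻¹ := inv_pos.2 hA0
  have hX' : 1 ≤ A⁻¹ * X := by
    rw [inv_mul_eq_div, le_div_iff₀ hA0]
    linarith
  have hAX : A * (A⁻¹ * X) = X := by field_simp
  have hlt : A⁻¹ * X < X := by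
    rw [inv_mul_eq_div, div_lt_iff₀ hA0]
    exact lt_mul_of_one_lt_right hX0 hA
  have g1 : H ≤ (A⁻¹ * X) ^ (1 - ε / 4) := by
    rw [Real.mul_rpow hAi.le hX0.le]
    rw [inv_mul_le_iff₀ (by positivity)] at w2
    exact hHX.trans w2
  have h1 := w1 H hH0 g1
  rw [hAX] at h1
  have h2 := cs hlt (by positivity) (psiH_int H (g := fun y => max (1 * (y - H)) 0) (by fun_prop) _ _)
    (psiH_int H (g := fun y => (max (1 * (y - H)) 0) ^ 2) (by fun_prop) _ _) h1
  have h3 : ∫ x in (A⁻¹ * X)..X, (max (1 * (psiH x H - H)) 0) ^ 2 ≤ ∫ x in (1 : ℝ)..X, (psiH x H - H) ^ 2 := by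
    have i1 := psiH_int H (g := fun y => (y - H) ^ 2) (by fun_prop)
    refine le_trans (intervalIntegral.integral_mono_on hlt.le
      (psiH_int H (g := fun y => (max (1 * (y - H)) 0) ^ 2) (by fun_prop) _ _) (i1 _ _) fun x _ => ?_)
      (intervalIntegral.integral_mono_interval hX' hlt.le le_rfl
        (Eventually.of_forall fun t => sq_nonneg _) (i1 _ _))
    rw [one_mul]
    rcases le_total (psiH x H - H) 0 with h | h
    · rw [max_eq_right h]
      nlinarith [sq_nonneg (psiH x H - H)]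
    · rw [max_eq_left h]
  have h4 : (H * (A⁻¹ * X) ^ (ρ.re - ε / 4)) ^ 2 / X ≤ (H * (A⁻¹ * X) ^ (ρ.re - ε / 4)) ^ 2 / (X - A⁻¹ * X) := by
    refine div_le_div_of_nonneg_left (sq_nonneg _) (by linarith) ?_
    have : 0 < A⁻¹ * X := by positivity
    linarith
  have h5 := h4.trans (h2.trans h3)
  have h6 : H ^ 2 * X ^ (2 * ρ.re - 2 - ε) ≤ 1 / X * ((H * (A⁻¹ * X) ^ (ρ.re - ε / 4)) ^ 2 / X) := by
    have e1 : 1 / X * ((H * (A⁻¹ * X) ^ (ρ.re - ε / 4)) ^ 2 / X) =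
        H ^ 2 * (A⁻¹ ^ (2 * ρ.re - ε / 2) * X ^ (2 * ρ.re - 2 - ε / 2)) := by
      rw [Real.mul_rpow hAi.le hX0.le, mul_pow, mul_pow, ← Real.rpow_natCast (A⁻¹ ^ (ρ.re - ε / 4)) 2,
        ← Real.rpow_natCast (X ^ (ρ.re - ε / 4)) 2, ← Real.rpow_mul hAi.le, ← Real.rpow_mul hX0.le]
      have e2 : X ^ (2 * ρ.re - 2 - ε / 2) = X ^ ((ρ.re - ε / 4) * ((2 : ℕ) : ℝ)) / (X * X) := by
        rw [show 2 * ρ.re - 2 - ε / 2 = (ρ.re - ε / 4) * ((2 : ℕ) : ℝ) - 2 by push_cast; ring,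
          Real.rpow_sub hX0, Real.rpow_two]
        ring
      rw [e2, show (ρ.re - ε / 4) * ((2 : ℕ) : ℝ) = 2 * ρ.re - ε / 2 by push_cast; ring]
      field_simp
    rw [e1]
    refine mul_le_mul_of_nonneg_left ?_ (sq_nonneg _)
    rw [inv_mul_le_iff₀ (by positivity)] at w3
    exact w3
  exact h6.trans (mul_le_mul_of_nonneg_left h5 (by positivity))

end

end Pool.Agent.N739.OW
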