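import Pool.Agent.N739.OW.Mu

/-!
# The mean square of one part (helper739)
-/

set_option autoImplicit false

open MeasureTheory Filter Topology Set
open Pool.Agent.W190 (SF rh_free)

namespace Pool.Agent.N739.OW

noncomputable section

variable {a : ℕ → ℝ}

theorem part_le (a : ℕ → ℝ) {s : ℝ} (hs : s = 1 ∨ s = -1) (u : ℝ) : max (s * SF a u) 0 ≤ |SF a u| := by
  rcases hs with rfl | rfl
  · rw [one_mul]; exact max_le (le_abs_self _) (abs_nonneg _)
  · rw [neg_one_mul]; exact max_le (neg_le_abs _) (abs_nonneg _)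

theorem sq_int (a : ℕ → ℝ) (s : ℝ) (hs : s = 1 ∨ s = -1) {x y : ℝ} (hx : 0 < x) (hxy : x ≤ y) :
    IntervalIntegrable (fun u => (max (s * SF a u) 0 / u) ^ 2) volume x y := by
  obtain ⟨B, hB⟩ := SF_bdd a x y
  rw [intervalIntegrable_iff]
  refine Measure.integrableOn_of_bounded (M := (B / x) ^ 2) (by simp) ?_ ?_
  · have h1 : Measurable fun u : ℝ => (max (s * SF a u) 0 / u) ^ 2 :=
      ((((SF_meas a).const_mul s).max measurable_const).div measurable_id).pow_const 2
    exact h1.aestronglyMeasurable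
  · refine (ae_restrict_iff' measurableSet_uIoc).2 (Eventually.of_forall fun u hu => ?_)
    have h1 := (part_le a hs u).trans (hB u hu)
    rw [uIoc_of_le hxy] at hu
    have hu0 : 0 < u := hx.trans hu.1
    have h0 : 0 ≤ max (s * SF a u) 0 := le_max_right _ _
    rw [Real.norm_eq_abs, abs_of_nonneg (by positivity)]
    have h2 : max (s * SF a u) 0 / u ≤ B / x := div_le_div₀ (h0.trans h1) h1 hx hu.1.le
    have h3 : 0 ≤ max (s * SF a u) 0 / u := by positivity
    exact pow_le_pow_left₀ h3 h2 2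

theorem Inp.rh_sq (h : Inp a) {s : ℝ} (hs : s = 1 ∨ s = -1) :
    RiemannHypothesis ↔
      ∀ A ε : ℝ, 1 < A → 0 < ε → ∃ᶠ X : ℝ in atTop, ∫ u in X..(A * X), (max (s * SF a u) 0 / u) ^ 2 ≤ X ^ ε := by
  constructor
  · intro hRH A ε hA hε
    obtain ⟨C, hC⟩ := h.up (1 / 2) (1 / 2 + ε / 4) le_rfl (rh_free.1 hRH) (by linarith)
    have hC0 : 0 ≤ C := by
      have := (abs_nonneg _).trans (hC 1 le_rfl)
      simpa using this
    refine Eventually.frequently ?_
    filter_upwards [(tendsto_rpow_atTop (show 0 < ε / 2 by linarith)).eventually_ge_atTop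
      ((A - 1) * (C * A ^ (1 / 2 + ε / 4)) ^ 2), eventually_ge_atTop (1 : ℝ)] with X hX1 hX2
    have hX0 : 0 < X := by linarith
    have hXA : X ≤ A * X := by nlinarith
    calc ∫ u in X..(A * X), (max (s * SF a u) 0 / u) ^ 2
        ≤ ∫ u in X..(A * X), (C * (A * X) ^ (1 / 2 + ε / 4) / X) ^ 2 := by
          refine intervalIntegral.integral_mono_on hXA (sq_int a s hs hX0 hXA) intervalIntegrable_const
            fun u hu => ?_
          have hu0 : 0 < u := by linarith [hu.1]
          have h0 : 0 ≤ max (s * SF a u) 0 := le_max_right _ _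
          have h3 : max (s * SF a u) 0 ≤ C * (A * X) ^ (1 / 2 + ε / 4) := by
            refine (part_le a hs u).trans ((hC u (by linarith [hu.1])).trans ?_)
            exact mul_le_mul_of_nonneg_left (Real.rpow_le_rpow hu0.le hu.2 (by linarith)) hC0
          have h4 : max (s * SF a u) 0 / u ≤ C * (A * X) ^ (1 / 2 + ε / 4) / X :=
            div_le_div₀ (h0.trans h3) h3 hX0 hu.1
          exact pow_le_pow_left₀ (by positivity) h4 2
      _ = ((A - 1) * (C * A ^ (1 / 2 + ε / 4)) ^ 2) * ((X ^ (1 / 2 + ε / 4)) ^ 2 / X) := by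
          rw [intervalIntegral.integral_const, smul_eq_mul, Real.mul_rpow (by linarith) hX0.le]
          field_simp
      _ ≤ X ^ (ε / 2) * ((X ^ (1 / 2 + ε / 4)) ^ 2 / X) := by gcongr
      _ = X ^ ε := by
          rw [← Real.rpow_natCast (X ^ (1 / 2 + ε / 4)) 2, ← Real.rpow_mul hX0.le]
          nth_rewrite 3 [← Real.rpow_one X]
          rw [← Real.rpow_sub hX0, ← Real.rpow_add hX0]
          congr 1
          push_cast
          ring
  · intro hall
    rw [h.rh hs]
    intro A ε hA hε
    have hf := hall A (ε / 2) hA (by linarith)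
    have hev : ∀ᶠ X : ℝ in atTop, 1 / 2 + A ^ 2 * (A - 1) / 2 ≤ X ^ (ε / 2) :=
      (tendsto_rpow_atTop (show 0 < ε / 2 by linarith)).eventually_ge_atTop _
    refine (hf.and_eventually (hev.and (eventually_ge_atTop (1 : ℝ)))).mono fun X hX => ?_
    obtain ⟨hX1, hX2, hX3⟩ := hX
    have hX0 : 0 < X := by linarith
    have hXA : X ≤ A * X := by nlinarith
    set L : ℝ := X ^ (3 / 2 : ℝ) with hL
    have hL0 : 0 < L := by positivity
    have hL2 : L ^ 2 = X ^ 3 := by
      rw [hL, ← Real.rpow_natCast (X ^ (3 / 2 : ℝ)) 2, ← Real.rpow_mul hX0.le, ← Real.rpow_natCast X 3]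
      norm_num
    have h1 : ∫ u in X..(A * X), max (s * SF a u) 0 ≤
        ∫ u in X..(A * X), (L / 2 * (max (s * SF a u) 0 / u) ^ 2 + A ^ 2 * X ^ 2 / (2 * L)) := by
      refine intervalIntegral.integral_mono_on hXA (pos_int a s _ _ hs)
        (((sq_int a s hs hX0 hXA).const_mul _).add intervalIntegrable_const) fun u hu => ?_
      have hu0 : 0 < u := by linarith [hu.1]
      set t : ℝ := max (s * SF a u) 0 / u with ht
      have ht0 : 0 ≤ t := div_nonneg (le_max_right _ _) hu0.le
      have e : max (s * SF a u) 0 = t * u := by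
        rw [ht]
        field_simp
      rw [e]
      have h2 : t * u ≤ L / 2 * t ^ 2 + u ^ 2 / (2 * L) := by
        have h3 : 0 ≤ (L * t - u) ^ 2 / (2 * L) := by positivity
        have h4 : (L * t - u) ^ 2 / (2 * L) = L / 2 * t ^ 2 + u ^ 2 / (2 * L) - t * u := by
          field_simp
          ring
        linarith
      have h5 : u ^ 2 / (2 * L) ≤ A ^ 2 * X ^ 2 / (2 * L) := by
        rw [← mul_pow]
        gcongr
        exact hu.2
      linarith
    have h2 : ∫ u in X..(A * X), (L / 2 * (max (s * SF a u) 0 / u) ^ 2 + A ^ 2 * X ^ 2 / (2 * L)) =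
        L / 2 * (∫ u in X..(A * X), (max (s * SF a u) 0 / u) ^ 2) + A ^ 2 * X ^ 2 / (2 * L) * ((A - 1) * X) := by
      rw [intervalIntegral.integral_add ((sq_int a s hs hX0 hXA).const_mul _) intervalIntegrable_const,
        intervalIntegral.integral_const_mul, intervalIntegral.integral_const, smul_eq_mul]
      ring
    have h3 : A ^ 2 * X ^ 2 / (2 * L) * ((A - 1) * X) = A ^ 2 * (A - 1) / 2 * L := by
      field_simp
      rw [hL2]
    calc ∫ u in X..(A * X), max (s * SF a u) 0
        ≤ L / 2 * X ^ (ε / 2) + A ^ 2 * (A - 1) / 2 * L := by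
          rw [← h3]
          refine (h1.trans h2.le).trans ?_
          gcongr
      _ ≤ L / 2 * X ^ (ε / 2) + A ^ 2 * (A - 1) / 2 * L * X ^ (ε / 2) := by
          have h4 : 1 ≤ X ^ (ε / 2) := Real.one_le_rpow hX3 (by linarith)
          have h5 : 0 ≤ A ^ 2 * (A - 1) / 2 * L := by
            have : 0 ≤ A - 1 := by linarith
            positivity
          nlinarith
      _ = (1 / 2 + A ^ 2 * (A - 1) / 2) * (L * X ^ (ε / 2)) := by ring
      _ ≤ X ^ (ε / 2) * (L * X ^ (ε / 2)) := by gcongr
      _ = X ^ (3 / 2 + ε) := by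
          rw [hL, mul_comm, mul_assoc, ← Real.rpow_add hX0, ← Real.rpow_add hX0]
          congr 1
          ring

end

end Pool.Agent.N739.OW
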