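import Pool.Agent.N739.OW.Ker
import Pool.Agent.N739.OW.Sq
import Pool.Agent.R303.SW.Inst

/-!
# One-sided bounds for short intervals on every window (helper739)
-/

set_option autoImplicit false

open MeasureTheory Filter Topology Set
open scoped ContDiff
open H353 (CutW bdW)
open Pool.Agent.W190 (SF)

namespace Pool.Agent.N739.OW

noncomputable section

variable {a b : ℕ → ℝ} {k0 A : ℝ} {W : ℝ → ℝ}

/-- the error term -/
def EE (a : ℕ → ℝ) (k0 u : ℝ) : ℝ := SF a u - k0 * u

theorem EE_meas (a : ℕ → ℝ) (k0 : ℝ) : Measurable (EE a k0) :=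
  (SF_meas a).sub (measurable_id.const_mul k0)

theorem EE_int (a : ℕ → ℝ) (k0 x y : ℝ) : IntervalIntegrable (EE a k0) volume x y :=
  (comp_int a (g := fun t => t) measurable_id (fun t => le_rfl) x y).sub
    ((continuous_const.mul continuous_id).intervalIntegrable _ _)

theorem EE_shift_int (a : ℕ → ℝ) (k0 t x y : ℝ) : IntervalIntegrable (fun u => EE a k0 (u + t)) volume x y := by
  have := (EE_int a k0 (x + t) (y + t)).comp_add_right t
  simpa using this

/-- the moving average -/
def E1 (a : ℕ → ℝ) (k0 H x : ℝ) : ℝ := H⁻¹ * ∫ t in (0 : ℝ)..H, EE a k0 (x + t)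

theorem E1_eq (a : ℕ → ℝ) (k0 H x : ℝ) : E1 a k0 H x = H⁻¹ * ∫ u in x..(x + H), EE a k0 u := by
  unfold E1
  rw [intervalIntegral.integral_comp_add_left (fun u => EE a k0 u) x, add_zero]

theorem E1_diff (a : ℕ → ℝ) (k0 : ℝ) {H : ℝ} (hH : H ≠ 0) (x y : ℝ) :
    H * (E1 a k0 H y - E1 a k0 H x) = ∫ u in x..y, (EE a k0 (u + H) - EE a k0 u) := by
  rw [E1_eq, E1_eq, ← mul_sub, mul_inv_cancel_left₀ hH,
    intervalIntegral.integral_sub (EE_shift_int a k0 H x y) (EE_int a k0 x y),
    intervalIntegral.integral_comp_add_right (fun u => EE a k0 u) H,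
    intervalIntegral.integral_interval_sub_interval_comm (EE_int _ _ _ _) (EE_int _ _ _ _) (EE_int _ _ _ _),
    intervalIntegral.integral_symm x y, intervalIntegral.integral_symm (x + H) (y + H)]
  ring

theorem E1_cont (a : ℕ → ℝ) (k0 H : ℝ) : Continuous (E1 a k0 H) := by
  have e : E1 a k0 H = fun x => H⁻¹ * ((∫ u in (0 : ℝ)..(x + H), EE a k0 u) - ∫ u in (0 : ℝ)..x, EE a k0 u) := by
    funext x
    rw [E1_eq, intervalIntegral.integral_interval_sub_left (EE_int _ _ _ _) (EE_int _ _ _ _)]
  rw [e]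
  have h := intervalIntegral.continuous_primitive (f := EE a k0) (μ := volume) (fun x y => EE_int a k0 x y) 0
  exact continuous_const.mul ((h.comp (continuous_id.add continuous_const)).sub h)

theorem swap_int {F : ℝ → ℝ → ℝ} (hF : Measurable (Function.uncurry F)) {M p q r s : ℝ} (hpq : p ≤ q)
    (hrs : r ≤ s) (hM : ∀ u ∈ Ioc p q, ∀ t ∈ Ioc r s, |F u t| ≤ M) :
    ∫ u in p..q, ∫ t in r..s, F u t = ∫ t in r..s, ∫ u in p..q, F u t := by
  simp only [intervalIntegral.integral_of_le hpq, intervalIntegral.integral_of_le hrs]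
  refine integral_integral_swap ?_
  rw [Measure.prod_restrict]
  refine Measure.integrableOn_of_bounded (M := M) ?_ hF.aestronglyMeasurable ?_
  · rw [Measure.prod_prod]
    exact ENNReal.mul_ne_top (by simp) (by simp)
  · refine (ae_restrict_iff' (measurableSet_Ioc.prod measurableSet_Ioc)).2 (Eventually.of_forall fun z hz => ?_)
    exact hM z.1 hz.1 z.2 hz.2

/-- the mean of the moving average is the mean of the function, up to a small error -/
theorem mean_shift (hA : 1 < A) (hW : CutW A W) {K : ℝ} (hK0 : 0 ≤ K)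
    (hK : ∀ x y : ℝ, |ker W x - ker W y| ≤ K * |x - y|)
    {x H B : ℝ} (hx : 0 < x) (hH : 0 < H) (hHx : H ≤ x) (hB : ∀ u ∈ Icc (x / A) (2 * x), |EE a k0 u| ≤ B) :
    |(∫ u in (x / A)..x, E1 a k0 H u * kx W x u) - ∫ u in (x / A)..x, EE a k0 u * kx W x u| ≤
      2 * K * B * H / x := by
  have hA0 : 0 < A := by linarith
  have hxA : x / A ≤ x := div_le_self hx.le hA.le
  have hB0 : 0 ≤ B := (abs_nonneg _).trans (hB x ⟨hxA, by linarith⟩)
  set J : ℝ → ℝ := fun t => ∫ u in (x / A)..x, EE a k0 (u + t) * kx W x u with hJ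
  -- the second form of J
  have hint : ∀ t p q : ℝ, IntervalIntegrable (fun v => EE a k0 v * kx W x (v - t)) volume p q := fun t p q =>
    (EE_int a k0 p q).mul_continuousOn
      ((kx_cont hA hW x).comp (continuous_id.sub continuous_const)).continuousOn
  have hJ2 : ∀ t ∈ Icc (0 : ℝ) H, J t = ∫ v in (x / A)..(x + H), EE a k0 v * kx W x (v - t) := by
    intro t ht
    have e1 : J t = ∫ v in (x / A + t)..(x + t), EE a k0 v * kx W x (v - t) := by
      rw [hJ, ← intervalIntegral.integral_comp_add_right (fun v => EE a k0 v * kx W x (v - t)) t]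
      simp only [add_sub_cancel_right]
    have z1 : ∫ v in (x / A)..(x / A + t), EE a k0 v * kx W x (v - t) = 0 := by
      rw [intervalIntegral.integral_of_le (by linarith [ht.1]), integral_Ioc_eq_integral_Ioo]
      refine setIntegral_eq_zero_of_forall_eq_zero fun u hu => ?_
      rw [kx_low hA hW hx (by linarith [hu.2]), mul_zero]
    have z2 : ∫ v in (x + t)..(x + H), EE a k0 v * kx W x (v - t) = 0 := by
      rw [intervalIntegral.integral_of_le (by linarith [ht.2])]
      refine setIntegral_eq_zero_of_forall_eq_zero fun u hu => ?_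
      rw [kx_hi hW hx (by linarith [hu.1]), mul_zero]
    have a1 := intervalIntegral.integral_add_adjacent_intervals (hint t (x / A) (x / A + t)) (hint t _ (x + H))
    have a2 := intervalIntegral.integral_add_adjacent_intervals (hint t (x / A + t) (x + t)) (hint t _ (x + H))
    rw [e1, ← a1, z1, zero_add, ← a2, z2, add_zero]
  -- Lipschitz
  set Q : ℝ := 2 * K * B / x with hQ
  have hQ0 : 0 ≤ Q := by positivity
  have hlip : ∀ t ∈ Icc (0 : ℝ) H, ∀ t' ∈ Icc (0 : ℝ) H, |J t - J t'| ≤ Q * |t - t'| := by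
    intro t ht t' ht'
    rw [hJ2 t ht, hJ2 t' ht', ← intervalIntegral.integral_sub (hint _ _ _) (hint _ _ _)]
    have h1 : ‖∫ v in (x / A)..(x + H), (EE a k0 v * kx W x (v - t) - EE a k0 v * kx W x (v - t'))‖ ≤
        (B * (K / x ^ 2 * |t - t'|)) * |x + H - x / A| := by
      refine intervalIntegral.norm_integral_le_of_norm_le_const fun v hv => ?_
      rw [uIoc_of_le (by linarith)] at hv
      rw [← mul_sub, norm_mul, Real.norm_eq_abs, Real.norm_eq_abs]
      have h2 := hB v ⟨hv.1.le, by linarith [hv.2]⟩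
      have h3 := kx_lip hK hx (v - t) (v - t')
      have h4 : |v - t - (v - t')| = |t - t'| := by
        rw [show v - t - (v - t') = -(t - t') by ring, abs_neg]
      rw [h4] at h3
      exact mul_le_mul h2 h3 (abs_nonneg _) hB0
    rw [Real.norm_eq_abs] at h1
    refine h1.trans ?_
    have h5 : |x + H - x / A| ≤ 2 * x := by
      rw [abs_of_nonneg (by linarith)]
      have : 0 ≤ x / A := by positivity
      linarith
    calc B * (K / x ^ 2 * |t - t'|) * |x + H - x / A| ≤ B * (K / x ^ 2 * |t - t'|) * (2 * x) := by gcongr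
      _ = Q * |t - t'| := by
          rw [hQ]
          field_simp
  have hJc : ContinuousOn J (Icc 0 H) := by
    have : LipschitzOnWith ⟨Q, hQ0⟩ J (Icc 0 H) := by
      refine LipschitzOnWith.of_dist_le_mul fun t ht t' ht' => ?_
      rw [Real.dist_eq, Real.dist_eq]
      exact hlip t ht t' ht'
    exact this.continuousOn
  have hJi : IntervalIntegrable J volume 0 H := by
    apply ContinuousOn.intervalIntegrable
    rwa [uIcc_of_le hH.le]
  -- Fubini
  have hfub : ∫ u in (x / A)..x, E1 a k0 H u * kx W x u = H⁻¹ * ∫ t in (0 : ℝ)..H, J t := by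
    have hk0 : ∀ u, |kx W x u| ≤ K / x ^ 2 * |u - (x + 1)| := by
      intro u
      have := kx_lip hK hx u (x + 1)
      rw [kx_hi hW hx (by linarith : x < x + 1), sub_zero] at this
      exact this
    have hmeas : Measurable (Function.uncurry fun u t : ℝ => EE a k0 (u + t) * kx W x u) := by
      have m1 : Measurable fun z : ℝ × ℝ => EE a k0 (z.1 + z.2) :=
        (EE_meas a k0).comp (measurable_fst.add measurable_snd)
      have m2 : Measurable fun z : ℝ × ℝ => kx W x z.1 := (kx_cont hA hW x).measurable.comp measurable_fst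
      exact m1.mul m2
    have h1 := swap_int hmeas (M := B * (K / x ^ 2 * (x + 1))) hxA hH.le (fun u hu t ht => by
      rw [abs_mul]
      have h2 := hB (u + t) ⟨by linarith [hu.1, ht.1], by linarith [hu.2, ht.2]⟩
      have h3 := hk0 u
      have h4 : |u - (x + 1)| ≤ x + 1 := by
        have hu0 : 0 < u := lt_trans (by positivity) hu.1
        rw [abs_of_nonpos (by linarith [hu.2])]
        linarith
      refine mul_le_mul h2 (h3.trans ?_) (abs_nonneg _) hB0
      gcongr)
    have h2 : ∫ u in (x / A)..x, E1 a k0 H u * kx W x u =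
        H⁻¹ * ∫ u in (x / A)..x, ∫ t in (0 : ℝ)..H, EE a k0 (u + t) * kx W x u := by
      rw [← intervalIntegral.integral_const_mul]
      refine intervalIntegral.integral_congr fun u _ => ?_
      show E1 a k0 H u * kx W x u = H⁻¹ * ∫ t in (0 : ℝ)..H, EE a k0 (u + t) * kx W x u
      rw [intervalIntegral.integral_mul_const]
      unfold E1
      ring
    rw [h2, h1]
  have hJ0 : ∫ u in (x / A)..x, EE a k0 u * kx W x u = J 0 := by
    rw [hJ]
    simp only [add_zero]
  rw [hfub, hJ0]
  have h6 : H⁻¹ * (∫ t in (0 : ℝ)..H, J t) - J 0 = H⁻¹ * ∫ t in (0 : ℝ)..H, (J t - J 0) := by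
    rw [intervalIntegral.integral_sub hJi intervalIntegrable_const, intervalIntegral.integral_const, smul_eq_mul,
      sub_zero, mul_sub, inv_mul_cancel_left₀ hH.ne']
  rw [h6, abs_mul, abs_of_pos (inv_pos.2 hH)]
  have h7 : ‖∫ t in (0 : ℝ)..H, (J t - J 0)‖ ≤ (Q * H) * |H - 0| := by
    refine intervalIntegral.norm_integral_le_of_norm_le_const fun t ht => ?_
    rw [uIoc_of_le hH.le] at ht
    rw [Real.norm_eq_abs]
    refine (hlip t ⟨ht.1.le, ht.2⟩ 0 ⟨le_rfl, hH.le⟩).trans ?_
    rw [sub_zero, abs_of_pos ht.1]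
    exact mul_le_mul_of_nonneg_left ht.2 hQ0
  rw [Real.norm_eq_abs, sub_zero, abs_of_pos hH] at h7
  calc H⁻¹ * |∫ t in (0 : ℝ)..H, (J t - J 0)| ≤ H⁻¹ * (Q * H * H) := by gcongr
    _ = 2 * K * B * H / x := by
        rw [hQ]
        field_simp

/-- the one-sided variation controls the moving average -/
theorem core {A1 X H s S0 : ℝ} (hA1 : 1 < A1) (hW : CutW A1 W) (hm : Monotone W) (hs : s = 1 ∨ s = -1)
    (hX : 0 < X) (hH : 0 < H) (hAA : A1 ≤ A)
    (hS : ∀ x ∈ Icc (A1 * X) (A * X), |∫ u in (x / A1)..x, E1 a k0 H u * kx W x u| ≤ S0) :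
    ∀ y ∈ Icc (A1 * X) (A * X / A1), |E1 a k0 H y| ≤
      S0 + (∫ t in X..(A * X), max (s * (EE a k0 (t + H) - EE a k0 t)) 0) / H := by
  set V : ℝ := ∫ t in X..(A * X), max (s * (EE a k0 (t + H) - EE a k0 t)) 0 with hV
  have hA10 : 0 < A1 := by linarith
  have hdint : ∀ x y : ℝ, IntervalIntegrable (fun t => EE a k0 (t + H) - EE a k0 t) volume x y := fun x y =>
    (EE_shift_int a k0 H x y).sub (EE_int a k0 x y)
  have hmint : ∀ x y : ℝ, IntervalIntegrable (fun t => max (s * (EE a k0 (t + H) - EE a k0 t)) 0) volume x y :=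
    fun x y => by
      have h1 := (hdint x y).const_mul s
      rw [intervalIntegrable_iff] at h1 ⊢
      exact h1.sup (integrable_zero _ _ _)
  have hmono : ∀ u y : ℝ, X ≤ u → u ≤ y → y ≤ A * X → s * E1 a k0 H y ≤ s * E1 a k0 H u + V / H := by
    intro u y h1 h2 h3
    have e := E1_diff a k0 hH.ne' u y
    have h4 : s * ∫ t in u..y, (EE a k0 (t + H) - EE a k0 t) ≤ V := by
      rw [← intervalIntegral.integral_const_mul]
      have h5 : ∫ t in u..y, s * (EE a k0 (t + H) - EE a k0 t) ≤
          ∫ t in u..y, max (s * (EE a k0 (t + H) - EE a k0 t)) 0 :=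
        intervalIntegral.integral_mono_on h2 ((hdint _ _).const_mul s) (hmint _ _) fun t _ => le_max_left _ _
      refine h5.trans ?_
      refine intervalIntegral.integral_mono_interval h1 h2 h3 ?_ (hmint _ _)
      exact Eventually.of_forall fun t => le_max_right _ _
    have h6 : s * (E1 a k0 H y - E1 a k0 H u) ≤ V / H := by
      rw [le_div_iff₀ hH]
      have : s * (E1 a k0 H y - E1 a k0 H u) * H = s * (H * (E1 a k0 H y - E1 a k0 H u)) := by ring
      rw [this, e]
      exact h4
    linarith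
  have hci : ∀ x p q : ℝ, ∀ c : ℝ, IntervalIntegrable (fun u => (c * E1 a k0 H u + V / H) * kx W x u) volume p q :=
    fun x p q c => (((continuous_const.mul (E1_cont a k0 H)).add continuous_const).mul
      (kx_cont hA1 hW x)).intervalIntegrable _ _
  have hkey : ∀ x : ℝ, 0 < x → ∀ c z : ℝ, (∀ u ∈ Icc (x / A1) x, z ≤ c * E1 a k0 H u + V / H) →
      z ≤ c * (∫ u in (x / A1)..x, E1 a k0 H u * kx W x u) + V / H := by
    intro x hx c z hz
    have hxA : x / A1 ≤ x := div_le_self hx.le hA1.le
    have h1 : z = ∫ u in (x / A1)..x, z * kx W x u := by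
      rw [intervalIntegral.integral_const_mul, kx_int hA1 hW hx, mul_one]
    have h2 : ∫ u in (x / A1)..x, (c * E1 a k0 H u + V / H) * kx W x u =
        c * (∫ u in (x / A1)..x, E1 a k0 H u * kx W x u) + V / H := by
      have e : ∀ u, (c * E1 a k0 H u + V / H) * kx W x u = c * (E1 a k0 H u * kx W x u) + V / H * kx W x u :=
        fun u => by ring
      simp only [e]
      rw [intervalIntegral.integral_add, intervalIntegral.integral_const_mul, intervalIntegral.integral_const_mul,
        kx_int hA1 hW hx, mul_one]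
      · exact (continuous_const.mul ((E1_cont a k0 H).mul (kx_cont hA1 hW x))).intervalIntegrable _ _
      · exact (continuous_const.mul (kx_cont hA1 hW x)).intervalIntegrable _ _
    rw [← h2]
    calc z = ∫ u in (x / A1)..x, z * kx W x u := h1
      _ ≤ _ := by
        refine intervalIntegral.integral_mono_on hxA
          ((continuous_const.mul (kx_cont hA1 hW x)).intervalIntegrable _ _) (hci x _ _ c) fun u hu => ?_
        exact mul_le_mul_of_nonneg_right (hz u hu) (kx_nonneg hm hx u)
  have habs : ∀ t : ℝ, |t| ≤ S0 → s * t ≤ S0 ∧ -(s * t) ≤ S0 := by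
    intro t ht
    rw [abs_le] at ht
    rcases hs with rfl | rfl
    · constructor <;> linarith [ht.1, ht.2]
    · constructor <;> linarith [ht.1, ht.2]
  intro y hy
  have hy0 : 0 < y := lt_of_lt_of_le (by positivity) hy.1
  have hA00 : 0 < A := by linarith
  have hyA : y ≤ A * X := hy.2.trans (div_le_self (by positivity) hA1.le)
  have hu1 : s * E1 a k0 H y ≤ S0 + V / H := by
    have h1 := hkey y hy0 s (s * E1 a k0 H y) (fun u hu => hmono u y (by
      have : X ≤ y / A1 := by
        rw [le_div_iff₀ hA10]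
        linarith [hy.1]
      linarith [hu.1]) hu.2 hyA)
    have h2 := (habs _ (hS y ⟨hy.1, hyA⟩)).1
    linarith
  have hu2 : -(s * E1 a k0 H y) ≤ S0 + V / H := by
    have hx0 : 0 < A1 * y := by positivity
    have hxA : A1 * y ≤ A * X := by
      have := hy.2
      rw [le_div_iff₀ hA10] at this
      linarith
    have hxx : A1 * y / A1 = y := by field_simp
    have h1 := hkey (A1 * y) hx0 (-s) (-(s * E1 a k0 H y)) (fun u hu => by
      rw [hxx] at hu
      have := hmono y u (by nlinarith [hy.1]) hu.1 (hu.2.trans hxA)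
      linarith)
    have h2 := (habs _ (hS (A1 * y) ⟨by nlinarith [hy.1], hxA⟩)).2
    linarith
  have e : |E1 a k0 H y| = |s * E1 a k0 H y| := by
    rcases hs with rfl | rfl
    · rw [one_mul]
    · rw [neg_one_mul, abs_neg]
  rw [e, abs_le]
  exact ⟨by linarith, hu1⟩

/-- the total variation from the one-sided one -/
theorem total {A1 X H s S0 p q : ℝ} (hA1 : 1 < A1) (hW : CutW A1 W) (hm : Monotone W) (hs : s = 1 ∨ s = -1)
    (hX : 0 < X) (hH : 0 < H) (hAA : A1 ≤ A)
    (hS : ∀ x ∈ Icc (A1 * X) (A * X), |∫ u in (x / A1)..x, E1 a k0 H u * kx W x u| ≤ S0)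
    (hp : A1 * X ≤ p) (hpq : p ≤ q) (hq : q ≤ A * X / A1) :
    ∫ t in p..q, |EE a k0 (t + H) - EE a k0 t| ≤
      4 * (∫ t in X..(A * X), max (s * (EE a k0 (t + H) - EE a k0 t)) 0) + 2 * (H * S0) := by
  have hc := core (a := a) (k0 := k0) hA1 hW hm hs hX hH hAA hS
  set V : ℝ := ∫ t in X..(A * X), max (s * (EE a k0 (t + H) - EE a k0 t)) 0 with hV
  have hA10 : 0 < A1 := by linarith
  have hdint : ∀ x y : ℝ, IntervalIntegrable (fun t => EE a k0 (t + H) - EE a k0 t) volume x y := fun x y =>
    (EE_shift_int a k0 H x y).sub (EE_int a k0 x y)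
  have hmint : ∀ x y : ℝ, IntervalIntegrable (fun t => max (s * (EE a k0 (t + H) - EE a k0 t)) 0) volume x y :=
    fun x y => by
      have h1 := (hdint x y).const_mul s
      rw [intervalIntegrable_iff] at h1 ⊢
      exact h1.sup (integrable_zero _ _ _)
  have e1 : ∫ t in p..q, |EE a k0 (t + H) - EE a k0 t| =
      2 * (∫ t in p..q, max (s * (EE a k0 (t + H) - EE a k0 t)) 0) -
        s * ∫ t in p..q, (EE a k0 (t + H) - EE a k0 t) := by
    rw [← intervalIntegral.integral_const_mul, ← intervalIntegral.integral_const_mul,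
      ← intervalIntegral.integral_sub ((hmint _ _).const_mul 2) ((hdint _ _).const_mul s)]
    refine intervalIntegral.integral_congr fun t _ => ?_
    show |EE a k0 (t + H) - EE a k0 t| = 2 * max (s * (EE a k0 (t + H) - EE a k0 t)) 0 -
      s * (EE a k0 (t + H) - EE a k0 t)
    set d := EE a k0 (t + H) - EE a k0 t
    have hd : |d| = |s * d| := by
      rcases hs with rfl | rfl
      · rw [one_mul]
      · rw [neg_one_mul, abs_neg]
    rw [hd]
    rcases le_total (s * d) 0 with h | h
    · rw [max_eq_right h, abs_of_nonpos h]; ring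
    · rw [max_eq_left h, abs_of_nonneg h]; ring
  have hqA : q ≤ A * X := hq.trans (div_le_self (by
    have : 0 < A := by linarith
    positivity) hA1.le)
  have hXp : X ≤ p := by nlinarith
  have e2 : ∫ t in p..q, max (s * (EE a k0 (t + H) - EE a k0 t)) 0 ≤ V :=
    intervalIntegral.integral_mono_interval hXp hpq hqA (Eventually.of_forall fun t => le_max_right _ _)
      (hmint _ _)
  have e3 := E1_diff a k0 hH.ne' p q
  have e4 := hc p ⟨hp, hpq.trans hq⟩
  have e5 := hc q ⟨hp.trans hpq, hq⟩
  have e6 : -(s * ∫ t in p..q, (EE a k0 (t + H) - EE a k0 t)) ≤ 2 * (H * S0) + 2 * V := by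
    rw [← e3]
    have h1 : |s * (H * (E1 a k0 H q - E1 a k0 H p))| ≤ H * ((S0 + V / H) + (S0 + V / H)) := by
      have hs1 : |s| = 1 := by rcases hs with rfl | rfl <;> simp
      rw [abs_mul, hs1, one_mul, abs_mul, abs_of_pos hH]
      refine mul_le_mul_of_nonneg_left ?_ hH.le
      exact (abs_sub _ _).trans (add_le_add e5 e4)
    have h2 := neg_le_abs (s * (H * (E1 a k0 H q - E1 a k0 H p)))
    have h3 : H * ((S0 + V / H) + (S0 + V / H)) = 2 * (H * S0) + 2 * V := by
      field_simp
      ring
    linarith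
  rw [e1]
  linarith

end

end Pool.Agent.N739.OW
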