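import Pool.Agent.N739.OW.Short

/-!
# One-sided bounds for short intervals on every window: the asymptotic form (helper739)
-/

set_option autoImplicit false

open MeasureTheory Filter Topology Set
open scoped ContDiff
open H353 (CutW bdW)
open Pool.Agent.W190 (SF rh_free)

namespace Pool.Agent.N739.OW

noncomputable section

/-- the input -/
structure SInp (a b : ℕ → ℝ) (k0 : ℝ) : Prop where
  ab : ∀ u : ℝ, 0 ≤ u → |EE a k0 u - SF b u| ≤ |k0|
  cut : ∀ σ θ A : ℝ, 1 / 2 < σ → σ < θ → θ < 1 → 0 < A → Real.pi * hsum σ < Real.log A →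
    ∃ W : ℝ → ℝ, CutW A W ∧ Monotone W ∧ bdW b θ W
  low : ∀ c θ e0 : ℝ, 0 < c → 1 / 2 ≤ θ → 0 < e0 → (∃ s : ℂ, riemannZeta s = 0 ∧ θ < s.re) →
    ∀ᶠ X : ℝ in atTop, ∀ H : ℝ, 0 < H → H ≤ X ^ (1 - e0) →
      H * X ^ θ ≤ ∫ y in X..(X + c * X), |EE a k0 (y + H) - EE a k0 y|
  up : ∀ σ₀ κ : ℝ, 1 / 2 ≤ σ₀ → (∀ s : ℂ, σ₀ < s.re → riemannZeta s ≠ 0) → σ₀ < κ →
    ∃ C : ℝ, ∀ y : ℝ, 1 ≤ y → |EE a k0 y| ≤ C * y ^ κ

theorem ev_pow {p q : ℝ} (h : p < q) (c : ℝ) : ∀ᶠ X : ℝ in atTop, c * X ^ p ≤ X ^ q := by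
  filter_upwards [(tendsto_rpow_atTop (show 0 < q - p by linarith)).eventually_ge_atTop c,
    eventually_gt_atTop 0] with X h1 h2
  have e : X ^ q = X ^ (q - p) * X ^ p := by
    rw [← Real.rpow_add h2]
    congr 1
    ring
  rw [e]
  exact mul_le_mul_of_nonneg_right h1 (by positivity)

variable {a b : ℕ → ℝ} {k0 : ℝ}

theorem mean_bound {A1 A K C1 C2 θc κ X H : ℝ} {W : ℝ → ℝ} (hA1 : 1 < A1) (hW : CutW A1 W) (hmW : Monotone W)
    (hK0 : 0 ≤ K) (hK : ∀ x y : ℝ, |ker W x - ker W y| ≤ K * |x - y|)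
    (hC1 : ∀ x : ℝ, 1 ≤ x → |∑ n ∈ Finset.Icc 1 ⌊x⌋₊, b n * W (x / n)| ≤ C1 * x ^ θc) (hθc : 0 ≤ θc)
    (hC20 : 0 ≤ C2) (hC2 : ∀ y : ℝ, 1 ≤ y → |EE a k0 y| ≤ C2 * y ^ κ) (hκ0 : 0 ≤ κ)
    (hab : ∀ u : ℝ, 0 ≤ u → |EE a k0 u - SF b u| ≤ |k0|) (hX1 : 1 ≤ X) (hH : 0 < H) (hHX : H ≤ X) :
    ∀ x ∈ Icc (A1 * X) (A * X), |∫ u in (x / A1)..x, E1 a k0 H u * kx W x u| ≤
      |C1| * (A * X) ^ θc + |k0| + 2 * K * (C2 * (2 * (A * X)) ^ κ) * H / X := by
  intro x hx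
  have hX0 : 0 < X := by linarith
  have hA10 : 0 < A1 := by linarith
  have hXA : X ≤ A1 * X := le_mul_of_one_le_left hX0.le hA1.le
  have hXx : X ≤ x := hXA.trans hx.1
  have hx0 : 0 < x := by linarith
  have hxA : x / A1 ≤ x := div_le_self hx0.le hA1.le
  have hx1 : 1 ≤ x / A1 := by
    rw [le_div_iff₀ hA10, one_mul]
    exact (le_mul_of_one_le_right hA10.le hX1).trans hx.1
  have hAx : A1 ≤ x := (le_mul_of_one_le_right hA10.le hX1).trans hx.1
  have hAX0 : 0 ≤ A * X := hx0.le.trans hx.2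
  have hB : ∀ u ∈ Icc (x / A1) (2 * x), |EE a k0 u| ≤ C2 * (2 * (A * X)) ^ κ := by
    intro u hu
    refine (hC2 u (hx1.trans hu.1)).trans (mul_le_mul_of_nonneg_left ?_ hC20)
    exact Real.rpow_le_rpow (by linarith [hu.1]) (by linarith [hu.2, hx.2]) hκ0
  have b1 := mean_shift hA1 hW hK0 hK hx0 hH (hHX.trans hXx) hB
  have hkint : ∀ p q : ℝ, IntervalIntegrable (fun u => SF b u * kx W x u) volume p q := fun p q =>
    (comp_int b (g := fun t => t) measurable_id (fun t => le_rfl) p q).mul_continuousOn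
      (kx_cont hA1 hW x).continuousOn
  have hkint2 : ∀ p q : ℝ, IntervalIntegrable (fun u => EE a k0 u * kx W x u) volume p q := fun p q =>
    (EE_int a k0 p q).mul_continuousOn (kx_cont hA1 hW x).continuousOn
  have b2 : |∫ u in (x / A1)..x, SF b u * kx W x u| ≤ |C1| * (A * X) ^ θc := by
    rw [← mean_eq hA1 hW b hAx]
    refine (hC1 x (by linarith)).trans ?_
    have h1 : x ^ θc ≤ (A * X) ^ θc := Real.rpow_le_rpow hx0.le hx.2 hθc
    calc C1 * x ^ θc ≤ |C1| * x ^ θc := mul_le_mul_of_nonneg_right (le_abs_self _) (by positivity)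
      _ ≤ _ := mul_le_mul_of_nonneg_left h1 (abs_nonneg _)
  have b3 : |(∫ u in (x / A1)..x, EE a k0 u * kx W x u) - ∫ u in (x / A1)..x, SF b u * kx W x u| ≤ |k0| := by
    rw [← intervalIntegral.integral_sub (hkint2 _ _) (hkint _ _)]
    have h1 : |∫ u in (x / A1)..x, (EE a k0 u * kx W x u - SF b u * kx W x u)| ≤
        ∫ u in (x / A1)..x, |k0| * kx W x u := by
      refine (intervalIntegral.abs_integral_le_integral_abs hxA).trans ?_
      refine intervalIntegral.integral_mono_on hxA ((hkint2 _ _).sub (hkint _ _)).abs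
        ((continuous_const.mul (kx_cont hA1 hW x)).intervalIntegrable _ _) fun u hu => ?_
      rw [← sub_mul, abs_mul, abs_of_nonneg (kx_nonneg hmW hx0 u)]
      exact mul_le_mul_of_nonneg_right (hab u (by linarith [hu.1])) (kx_nonneg hmW hx0 u)
    refine h1.trans (le_of_eq ?_)
    rw [intervalIntegral.integral_const_mul, kx_int hA1 hW hx0, mul_one]
  have b4 : 2 * K * (C2 * (2 * (A * X)) ^ κ) * H / x ≤ 2 * K * (C2 * (2 * (A * X)) ^ κ) * H / X :=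
    div_le_div_of_nonneg_left (by positivity) hX0 hXx
  have b6 := b1.trans b4
  set I1 := ∫ u in (x / A1)..x, E1 a k0 H u * kx W x u
  set I2 := ∫ u in (x / A1)..x, EE a k0 u * kx W x u
  set I3 := ∫ u in (x / A1)..x, SF b u * kx W x u
  have b5 : |I1| ≤ |I1 - I2| + |I2 - I3| + |I3| := by
    have e : I1 = (I1 - I2) + (I2 - I3) + I3 := by ring
    calc |I1| = |(I1 - I2) + (I2 - I3) + I3| := by rw [← e]
      _ ≤ _ := abs_add_three _ _ _
  calc |I1| ≤ |I1 - I2| + |I2 - I3| + |I3| := b5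
    _ ≤ 2 * K * (C2 * (2 * (A * X)) ^ κ) * H / X + |k0| + |C1| * (A * X) ^ θc := add_le_add (add_le_add b6 b3) b2
    _ = _ := by ring

theorem SInp.one (h : SInp a b k0) {σ A : ℝ} (h1 : 1 / 2 < σ) (h2 : σ < 1) (hA1' : 1 < A)
    (hlog : 2 * (Real.pi * hsum σ) < Real.log A) {ρ : ℂ} (hz : riemannZeta ρ = 0) (hρ : σ < ρ.re)
    {ε e0 : ℝ} (hε : 0 < ε) (he0 : 0 < e0) {s : ℝ} (hs : s = 1 ∨ s = -1) :
    ∀ᶠ X : ℝ in atTop, ∀ H : ℝ, 0 < H → H ≤ X ^ (1 - e0) →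
      H * X ^ (ρ.re - ε) ≤ ∫ t in X..(A * X), max (s * (EE a k0 (t + H) - EE a k0 t)) 0 := by
  set e1 : ℝ := min e0 (1 / 2) with he1
  have he10 : 0 < e1 := lt_min he0 (by norm_num)
  have he1a : e1 ≤ e0 := min_le_left _ _
  have he1b : e1 ≤ 1 / 2 := min_le_right _ _
  set d : ℝ := min (ε / 2) ((ρ.re - σ) / 2) with hd
  have hd0 : 0 < d := lt_min (by linarith) (by linarith)
  have hda : d ≤ ε / 2 := min_le_left _ _
  have hdb : d ≤ (ρ.re - σ) / 2 := min_le_right _ _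
  obtain ⟨σ0, ρ', g0, g1, g2, g3, g4, gfree⟩ := Pool.Agent.R303.SW.extract (θ := ρ.re - d / 2)
    ⟨ρ, hz, by linarith⟩ (e := e1 / 8) (by linarith)
  -- the lower exponent
  set θt : ℝ := ρ'.re - min (e1 / 8) (d / 2) with hθt
  have hm0 : 0 < min (e1 / 8) (d / 2) := lt_min (by linarith) (by linarith)
  have hma : min (e1 / 8) (d / 2) ≤ e1 / 8 := min_le_left _ _
  have hmb : min (e1 / 8) (d / 2) ≤ d / 2 := min_le_right _ _
  have t1 : ρ.re - d < θt := by rw [hθt]; linarith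
  have t2 : θt < ρ'.re := by rw [hθt]; linarith
  have t3 : σ < θt := by linarith
  have hρ'1 : ρ'.re < 1 := re_lt_one g0
  set θc : ℝ := (σ + θt) / 2 with hθc
  have hc1 : σ < θc := by rw [hθc]; linarith
  have hc2 : θc < θt := by rw [hθc]; linarith
  -- the ratio
  have hH0 : 0 ≤ Real.pi * hsum σ := mul_nonneg Real.pi_pos.le
    (tsum_nonneg fun ρ => div_nonneg (Nat.cast_nonneg _) ρ.2.2.2.le)
  set l : ℝ := (Real.pi * hsum σ + Real.log A / 2) / 2 with hl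
  have hl0 : 0 < l := by rw [hl]; linarith
  have hl1 : Real.pi * hsum σ < l := by rw [hl]; linarith
  have hl2 : 2 * l < Real.log A := by rw [hl]; linarith
  set A1 : ℝ := Real.exp l with hA1d
  have hA1 : 1 < A1 := Real.one_lt_exp_iff.2 hl0
  have hA10 : 0 < A1 := by linarith
  have hA0 : 0 < A := by linarith
  have hAA : A1 ^ 2 < A := by
    rw [hA1d, ← Real.exp_nat_mul, ← Real.lt_log_iff_exp_lt hA0]
    push_cast
    exact hl2
  have hAA1 : A1 ≤ A := (le_self_pow₀ hA1.le two_ne_zero).trans hAA.le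
  obtain ⟨W, hW, hmW, C1, hC1⟩ := h.cut σ θc A1 h1 hc1 (by linarith) hA10 (by rw [hA1d, Real.log_exp]; exact hl1)
  obtain ⟨K, hK0, hK⟩ := ker_lip hA1 hW
  set κ : ℝ := σ0 + e1 / 8 with hκ
  obtain ⟨C2, hC2⟩ := h.up σ0 κ (by linarith) gfree (by rw [hκ]; linarith)
  have hC20 : 0 ≤ C2 := by
    have := (abs_nonneg _).trans (hC2 1 le_rfl)
    simpa using this
  have hκ0 : 0 ≤ κ := by rw [hκ]; linarith
  have hκt : κ - e1 < θt := by rw [hκ, hθt]; linarith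
  set c : ℝ := A / A1 ^ 2 - 1 with hc
  have hc0 : 0 < c := by
    rw [hc, sub_pos, one_lt_div (by positivity)]
    exact hAA
  have hlow := h.low c θt e1 hc0 (by linarith) he10 ⟨ρ', g0, t2⟩
  have hlow' : ∀ᶠ X : ℝ in atTop, ∀ H : ℝ, 0 < H → H ≤ (A1 * X) ^ (1 - e1) →
      H * (A1 * X) ^ θt ≤ ∫ y in (A1 * X)..(A1 * X + c * (A1 * X)), |EE a k0 (y + H) - EE a k0 y| :=
    (tendsto_id.const_mul_atTop hA10).eventually hlow
  have v1 := ev_pow (show θc < θt from hc2) (12 * (|C1| * A ^ θc))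
  have v2 := ev_pow (show (0 : ℝ) < θt by linarith) (12 * |k0|)
  have v3 := ev_pow hκt (12 * (2 * K * (C2 * (2 * A) ^ κ)))
  have v4 := ev_pow (show ρ.re - ε < θt by linarith) 8
  filter_upwards [hlow', v1, v2, v3, v4, eventually_ge_atTop (1 : ℝ)] with X w0 w1 w2 w3 w4 hX1 H hH hHX
  have hX0 : 0 < X := by linarith
  have hHX2 : H ≤ X ^ (1 - e1) := hHX.trans (Real.rpow_le_rpow_of_exponent_le hX1 (by linarith))
  have hXe : X ^ (1 - e1) ≤ X := by
    calc X ^ (1 - e1) ≤ X ^ (1 : ℝ) := Real.rpow_le_rpow_of_exponent_le hX1 (by linarith)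
      _ = X := Real.rpow_one X
  have hHX3 : H ≤ X := hHX2.trans hXe
  -- the error
  set S0 : ℝ := |C1| * (A * X) ^ θc + |k0| + 2 * K * (C2 * (2 * (A * X)) ^ κ) * H / X with hS0
  have hS : ∀ x ∈ Icc (A1 * X) (A * X), |∫ u in (x / A1)..x, E1 a k0 H u * kx W x u| ≤ S0 :=
    mean_bound hA1 hW hmW hK0 hK hC1 (by linarith) hC20 hC2 hκ0 h.ab hX1 hH hHX3
  have hq : A1 * X + c * (A1 * X) ≤ A * X / A1 := by
    apply le_of_eq
    rw [hc]
    field_simp
    ring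
  have htot := total (a := a) (k0 := k0) hA1 hW hmW hs hX0 hH hAA1 hS le_rfl
    (le_add_of_nonneg_right (by positivity) : A1 * X ≤ A1 * X + c * (A1 * X)) hq
  have hXA1 : X ≤ A1 * X := le_mul_of_one_le_left hX0.le hA1.le
  have hlow2 := w0 H hH (hHX2.trans (Real.rpow_le_rpow hX0.le hXA1 (by linarith)))
  have hXt : X ^ θt ≤ (A1 * X) ^ θt := Real.rpow_le_rpow hX0.le hXA1 (by linarith)
  -- the size of S0
  have hS0b : S0 ≤ X ^ θt / 4 := by
    have c1 : 12 * (|C1| * (A * X) ^ θc) ≤ X ^ θt := by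
      rw [Real.mul_rpow hA0.le hX0.le]
      calc 12 * (|C1| * (A ^ θc * X ^ θc)) = 12 * (|C1| * A ^ θc) * X ^ θc := by ring
        _ ≤ _ := w1
    have c2 : 12 * |k0| ≤ X ^ θt := by
      rw [Real.rpow_zero, mul_one] at w2
      exact w2
    have c3 : 12 * (2 * K * (C2 * (2 * (A * X)) ^ κ) * H / X) ≤ X ^ θt := by
      refine le_trans ?_ w3
      have d1 : H / X ≤ X ^ (-e1) := by
        rw [div_le_iff₀ hX0, ← Real.rpow_add_one hX0.ne', show -e1 + 1 = 1 - e1 by ring]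
        exact hHX2
      have d2 : (2 * (A * X)) ^ κ = (2 * A) ^ κ * X ^ κ := by
        rw [← mul_assoc, Real.mul_rpow (by positivity) hX0.le]
      rw [d2, Real.rpow_sub hX0, div_eq_mul_inv (X ^ κ), ← Real.rpow_neg hX0.le]
      calc 12 * (2 * K * (C2 * ((2 * A) ^ κ * X ^ κ)) * H / X)
          = 12 * (2 * K * (C2 * (2 * A) ^ κ)) * (X ^ κ * (H / X)) := by ring
        _ ≤ 12 * (2 * K * (C2 * (2 * A) ^ κ)) * (X ^ κ * X ^ (-e1)) := by gcongr
    rw [hS0]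
    calc |C1| * (A * X) ^ θc + |k0| + 2 * K * (C2 * (2 * (A * X)) ^ κ) * H / X
        = (12 * (|C1| * (A * X) ^ θc) + 12 * |k0| + 12 * (2 * K * (C2 * (2 * (A * X)) ^ κ) * H / X)) / 12 := by
          ring
      _ ≤ (X ^ θt + X ^ θt + X ^ θt) / 12 :=
          div_le_div_of_nonneg_right (add_le_add (add_le_add c1 c2) c3) (by norm_num)
      _ = X ^ θt / 4 := by ring
  set V := ∫ t in X..(A * X), max (s * (EE a k0 (t + H) - EE a k0 t)) 0
  have f1 : H * X ^ θt ≤ 4 * V + 2 * (H * (X ^ θt / 4)) := by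
    calc H * X ^ θt ≤ H * (A1 * X) ^ θt := by gcongr
      _ ≤ _ := hlow2
      _ ≤ 4 * V + 2 * (H * S0) := htot
      _ ≤ _ := by gcongr
  have f2 : H * (8 * X ^ (ρ.re - ε)) ≤ H * X ^ θt := mul_le_mul_of_nonneg_left w4 hH.le
  linarith

end

end Pool.Agent.N739.OW
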